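import Pool.Agent.Lib.MP_688fd0_co.TF.Iface3
import Pool.Agent.Lib.MP_688fd0_co.TE.H35.Low

/-!
# Theorem F, module LOWF: some colour is good
-/

set_option autoImplicit false
set_option linter.unusedSectionVars false

namespace Pool.Agent.Lib.MP_688fd0_co.TF.H35

open Pool.Agent.Lib.MP_688fd0_co.TE Pool.Agent.Lib.MP_688fd0_co.TF
open Pool.Agent.Lib.MP_688fd0_co.TE.H35

universe u v

section model

variable {V : Type u} {Val : Type v} [Fintype V] [Fintype Val] [DecidableEq V] {a : ℕ}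
  (M : LM V Val a) (jm : ℕ)

theorem gm_bd (hR : RHOF_S.{u, v}) (hj : jm < a) (x y : V) (z : List (V × Val)) :
    0 ≤ M.gm jm x y z ∧ M.gm jm x y z ≤ 1 := (hR V Val a M jm hj x y).2.1 z

/-- the law `h` of the vertices of the walk -/
noncomputable def hvF (x y : V) (w : V) : ℝ :=
  sumL a (fun z => M.pr jm x y z * ind (vz M z w)) / M.Fm jm x y

theorem hvF_nonneg (x y w : V) (hp : ∀ z, 0 ≤ M.pr jm x y z) (hf : 0 < M.Fm jm x y) :
    0 ≤ hvF M jm x y w :=
  div_nonneg (sumL_nonneg _ _ fun z => mul_nonneg (hp z) (ind_nonneg _)) hf.le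

theorem sum_hvF (x y : V) (hp : ∀ z, 0 ≤ M.pr jm x y z) (hf : 0 < M.Fm jm x y) :
    ∑ w, hvF M jm x y w ≤ 2 * (a : ℝ) := by
  simp only [hvF]
  rw [← Finset.sum_div, div_le_iff₀ hf, ← sumL_sum, LM.Fm, ← sumL_mul]
  refine sumL_mono _ _ _ fun z hz => ?_
  rw [← Finset.mul_sum]
  have := sum_vz M z
  rw [hz] at this
  nlinarith [hp z]

theorem mass_AAF {X q b1 : ℝ} {W : V → Prop} {x y : V} (hP : M.PF jm X q b1 W x y)
    (hp : ∀ z, 0 ≤ M.pr jm x y z)
    (hf : 0 < M.Fm jm x y) (D : V → Prop) (hD : ∑ w, ind (D w) * hvF M jm x y w ≤ 1 / 40) :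
    (37 / 40 : ℝ) * M.Fm jm x y ≤
      sumL a (fun z => M.pr jm x y z * ind (AA M W D x y z)) := by
  set f := M.Fm jm x y with hfdef
  have h1 : f ≤ sumL a (fun z => M.pr jm x y z * ind (AA M W D x y z)) +
      sumL a (fun z => M.pr jm x y z * ind (∃ (i j : ℕ) (s s' : V × Val) (w : V), i ≤ j ∧
        z[i]? = some s ∧ z[j]? = some s' ∧ (s.1 = w ∨ M.ex s.1 s.2 = w) ∧
        ((i < j ∧ (s'.1 = w ∨ M.ex s'.1 s'.2 = w)) ∨ w = x ∨ w = y))) +
      sumL a (fun z => M.pr jm x y z * ind (∃ (i : ℕ) (s : V × Val) (w : V), z[i]? = some s ∧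
        (s.1 = w ∨ M.ex s.1 s.2 = w) ∧ W w)) +
      sumL a (fun z => ∑ w, ind (D w) * (M.pr jm x y z * ind (vz M z w))) := by
    rw [← sumL_add, ← sumL_add, ← sumL_add, hfdef, LM.Fm]
    refine sumL_mono _ _ _ fun z _ => ?_
    have e : ∑ w, ind (D w) * (M.pr jm x y z * ind (vz M z w)) =
        M.pr jm x y z * ∑ w, ind (D w) * ind (vz M z w) := by
      rw [Finset.mul_sum]
      exact Finset.sum_congr rfl fun w _ => by ring
    rw [e, ← mul_add, ← mul_add, ← mul_add]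
    have hpw := hp z
    refine le_mul_of_one_le_right hpw ?_
    have hDs : 0 ≤ ∑ w, ind (D w) * ind (vz M z w) :=
      Finset.sum_nonneg fun w _ => mul_nonneg (ind_nonneg _) (ind_nonneg _)
    by_cases c1 : AA M W D x y z
    · rw [ind_of c1]
      linarith [ind_nonneg (∃ (i j : ℕ) (s s' : V × Val) (w : V), i ≤ j ∧
        z[i]? = some s ∧ z[j]? = some s' ∧ (s.1 = w ∨ M.ex s.1 s.2 = w) ∧
        ((i < j ∧ (s'.1 = w ∨ M.ex s'.1 s'.2 = w)) ∨ w = x ∨ w = y)),
        ind_nonneg (∃ (i : ℕ) (s : V × Val) (w : V), z[i]? = some s ∧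
        (s.1 = w ∨ M.ex s.1 s.2 = w) ∧ W w)]
    by_cases c2 : ∃ (i j : ℕ) (s s' : V × Val) (w : V), i ≤ j ∧
        z[i]? = some s ∧ z[j]? = some s' ∧ (s.1 = w ∨ M.ex s.1 s.2 = w) ∧
        ((i < j ∧ (s'.1 = w ∨ M.ex s'.1 s'.2 = w)) ∨ w = x ∨ w = y)
    · rw [ind_of c2]
      linarith [ind_nonneg (AA M W D x y z),
        ind_nonneg (∃ (i : ℕ) (s : V × Val) (w : V), z[i]? = some s ∧
        (s.1 = w ∨ M.ex s.1 s.2 = w) ∧ W w)]
    by_cases c3 : ∃ (i : ℕ) (s : V × Val) (w : V), z[i]? = some s ∧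
        (s.1 = w ∨ M.ex s.1 s.2 = w) ∧ W w
    · rw [ind_of c3]
      linarith [ind_nonneg (AA M W D x y z), ind_nonneg (∃ (i j : ℕ) (s s' : V × Val) (w : V),
        i ≤ j ∧ z[i]? = some s ∧ z[j]? = some s' ∧ (s.1 = w ∨ M.ex s.1 s.2 = w) ∧
        ((i < j ∧ (s'.1 = w ∨ M.ex s'.1 s'.2 = w)) ∨ w = x ∨ w = y))]
    have c4 : ∃ w, vz M z w ∧ D w := by
      by_contra c4
      apply c1
      refine ⟨?_, ?_⟩
      · intro i j s s' hij hi hj w hw hw'
        exact c2 ⟨i, j, s, s', w, hij.le, hi, hj, hw, Or.inl ⟨hij, hw'⟩⟩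
      · intro w hw
        have hw2 := hw
        obtain ⟨i, s, hi, hs⟩ := hw
        refine ⟨fun h => c3 ⟨i, s, w, hi, hs, h⟩, fun h => c2 ⟨i, i, s, s, w, le_rfl, hi, hi, hs,
          Or.inr (Or.inl h)⟩, fun h => c2 ⟨i, i, s, s, w, le_rfl, hi, hi, hs,
          Or.inr (Or.inr h)⟩, fun h => c4 ⟨w, hw2, h⟩⟩
    obtain ⟨w, hw1, hw2⟩ := c4
    have h2 : (1 : ℝ) ≤ ∑ w, ind (D w) * ind (vz M z w) := by
      have := Finset.single_le_sum (f := fun w => ind (D w) * ind (vz M z w))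
        (fun w _ => mul_nonneg (ind_nonneg _) (ind_nonneg _)) (Finset.mem_univ w)
      simp only [ind_of hw1, ind_of hw2, mul_one] at this
      exact this
    linarith [ind_nonneg (AA M W D x y z), ind_nonneg (∃ (i j : ℕ) (s s' : V × Val) (w : V),
        i ≤ j ∧ z[i]? = some s ∧ z[j]? = some s' ∧ (s.1 = w ∨ M.ex s.1 s.2 = w) ∧
        ((i < j ∧ (s'.1 = w ∨ M.ex s'.1 s'.2 = w)) ∨ w = x ∨ w = y)),
        ind_nonneg (∃ (i : ℕ) (s : V × Val) (w : V), z[i]? = some s ∧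
        (s.1 = w ∨ M.ex s.1 s.2 = w) ∧ W w)]
  have h2 : sumL a (fun z => ∑ w, ind (D w) * (M.pr jm x y z * ind (vz M z w))) ≤ f / 40 := by
    rw [sumL_sum]
    simp only [sumL_mul]
    have e : ∀ w, sumL a (fun z => M.pr jm x y z * ind (vz M z w)) = hvF M jm x y w * f := by
      intro w
      rw [hvF, div_mul_cancel₀ _ hf.ne']
    simp only [e, ← mul_assoc]
    rw [← Finset.sum_mul]
    nlinarith
  have h3 := hP.dis
  have h4 := hP.wz
  linarith

/-- a walk of `AA` is good, or in conflict with the field, or truncated, if `x` and `y` are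
untouched -/
theorem splitF {T : ℕ} (ω : Fin T → Fld a V Val) (t : Fin T) (W : V → Prop) (lam : ℝ) (x y : V)
    (hp : ∀ z, 0 ≤ M.pr jm x y z) (hx : ¬ M.tch (ω t) x) (hy : ¬ M.tch (ω t) y) :
    sumL a (fun z => M.pr jm x y z * M.xw (ω t) 0 z *
        ind (AA M W (fun w => ∃ t' < t, M.tch (ω t') w) x y z)) ≤
      M.Zgm jm ω W lam t x y +
      (sumL a (fun z => M.pr jm x y z * M.xw (ω t) 0 z * ind (M.vdis z ∧
      ∃ (i j : ℕ) (s : V × Val) (w u : V) (e : Val), z[i]? = some s ∧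
        (s.1 = w ∨ M.ex s.1 s.2 = w) ∧ val (ω t) j u = some e ∧ (u = w ∨ M.ex u e = w) ∧
        ¬ (j = i ∧ (u, e) = s))) +
      sumL a (fun z => M.pr jm x y z * M.xw (ω t) 0 z *
        ind (∃ s, z[jm]? = some s ∧ lam * M.ka jm x s.1 < M.ZXm jm (ω t) x s.1)) +
      sumL a (fun z => M.pr jm x y z * M.xw (ω t) 0 z *
        ind (∃ s, z[jm]? = some s ∧
          lam * M.kc jm (M.ex s.1 s.2) y < M.ZYm jm (ω t) (M.ex s.1 s.2) y))) := by
  rw [LM.Zgm, ← sumL_add, ← sumL_add, ← sumL_add]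
  refine sumL_mono _ _ _ fun z _ => ?_
  rw [← mul_add, ← mul_add, ← mul_add]
  refine mul_le_mul_of_nonneg_left ?_ (mul_nonneg (hp z) (xw_nonneg M (ω t) z 0))
  by_cases c0 : AA M W (fun w => ∃ t' < t, M.tch (ω t') w) x y z
  swap
  · rw [ind_not c0]
    exact add_nonneg (ind_nonneg _) (add_nonneg (add_nonneg (ind_nonneg _) (ind_nonneg _))
      (ind_nonneg _))
  rw [ind_of c0]
  by_cases c1 : (M.vdis z ∧ ∃ (i j : ℕ) (s : V × Val) (w u : V) (e : Val), z[i]? = some s ∧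
        (s.1 = w ∨ M.ex s.1 s.2 = w) ∧ val (ω t) j u = some e ∧ (u = w ∨ M.ex u e = w) ∧
        ¬ (j = i ∧ (u, e) = s))
  · rw [ind_of c1]
    linarith [ind_nonneg (M.goodm jm ω W lam t x y z),
      ind_nonneg (∃ s, z[jm]? = some s ∧ lam * M.ka jm x s.1 < M.ZXm jm (ω t) x s.1),
      ind_nonneg (∃ s, z[jm]? = some s ∧
          lam * M.kc jm (M.ex s.1 s.2) y < M.ZYm jm (ω t) (M.ex s.1 s.2) y)]
  by_cases c2 : ∃ s, z[jm]? = some s ∧ lam * M.ka jm x s.1 < M.ZXm jm (ω t) x s.1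
  · rw [ind_of c2, ind_not c1]
    linarith [ind_nonneg (M.goodm jm ω W lam t x y z),
      ind_nonneg (∃ s, z[jm]? = some s ∧
          lam * M.kc jm (M.ex s.1 s.2) y < M.ZYm jm (ω t) (M.ex s.1 s.2) y)]
  by_cases c3 : ∃ s, z[jm]? = some s ∧
          lam * M.kc jm (M.ex s.1 s.2) y < M.ZYm jm (ω t) (M.ex s.1 s.2) y
  · rw [ind_of c3, ind_not c1, ind_not c2]
    linarith [ind_nonneg (M.goodm jm ω W lam t x y z)]
  have c4 : M.goodm jm ω W lam t x y z := by
    refine ⟨?_, hx, hy, ?_⟩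
    · intro i s hi w hw
      obtain ⟨k1, k2, k3, k4⟩ := c0.2 w ⟨i, s, hi, hw⟩
      refine ⟨k1, k2, k3, fun t' ht' h => k4 ⟨t', ht', h⟩, ?_⟩
      intro j u e hv hu
      by_contra hne
      exact c1 ⟨c0.1, i, j, s, w, u, e, hi, hw, hv, hu, hne⟩
    · intro s hs
      exact ⟨not_lt.1 fun h => c2 ⟨s, hs, h⟩, not_lt.1 fun h => c3 ⟨s, hs, h⟩⟩
  rw [ind_of c4, ind_not c1, ind_not c2, ind_not c3]
  norm_num

/-- locality of `Zgm` -/
theorem Zgm_congr {T : ℕ} (ω ω' : Fin T → Fld a V Val) (t : Fin T) (h : ∀ s, s ≤ t → ω s = ω' s)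
    (W : V → Prop) (lam : ℝ) (x y : V) : M.Zgm jm ω W lam t x y = M.Zgm jm ω' W lam t x y := by
  rw [LM.Zgm, LM.Zgm]
  refine sumL_congr _ _ _ fun z => ?_
  rw [h t le_rfl]
  have e : M.goodm jm ω W lam t x y z = M.goodm jm ω' W lam t x y z := by
    unfold LM.goodm LM.clean
    rw [h t le_rfl]
    have e2 : ∀ w, (∀ t' < t, ¬ M.tch (ω t') w) = (∀ t' < t, ¬ M.tch (ω' t') w) := by
      intro w
      refine propext ⟨fun k t' ht' => ?_, fun k t' ht' => ?_⟩
      · rw [← h t' ht'.le]; exact k t' ht'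
      · rw [h t' ht'.le]; exact k t' ht'
    simp only [e2]
  rw [e]

end model

/-- Module LOWF. -/
theorem lowf (hPI : PIPR_S.{0, max u v}) (hEX : EXX_S.{u, v}) (hSEQ : SEQ_S.{max u v})
    (hRHO : RHOF_S.{u, v}) (hA : LOWAF_S.{u, v}) (hB : LOWBF_S.{u, v}) (hC : LOWCF_S.{u, v})
    (hD : LOWD_S.{u, v}) : LOWF_S.{u, v} := by
  intro V Val _ _ _ a M jm X q b1 lam0 T W x y hN hP
  classical
  -- numbers
  have hX : (10 : ℝ) ^ 6 ≤ X := hN.X1
  have hX0 : (0 : ℝ) < X := lt_of_lt_of_le (by norm_num) hX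
  have hX1 : (1 : ℝ) ≤ X := le_trans (by norm_num) hX
  set n : ℝ := (Fintype.card V : ℝ) with hn
  have hn2 : 2 ≤ n := hN.n1
  have hn1 : 1 ≤ n := le_trans (by norm_num) hn2
  have hn0 : 0 < n := lt_of_lt_of_le one_pos hn1
  have hq : 0 < q := lt_of_lt_of_le (one_div_pos.2 hn0) hN.q0
  have hl1 : 1 ≤ lam0 := hN.l1
  have hl0 : 0 < lam0 := lt_of_lt_of_le one_pos hl1
  have hja : jm + 1 < a := hN.jma
  have hjm : jm < a := by omega
  have ha1 : (1 : ℝ) ≤ a := by exact_mod_cast (by omega : 1 ≤ a)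
  set f := M.Fm jm x y with hfdef
  have hf9 : (3 / 4 : ℝ) * q ≤ f := hP.f0
  have hf : 0 < f := lt_of_lt_of_le (by positivity) hf9
  have hbX : X ^ 50000 ≤ b1 := hN.bX
  have hb0 : 0 < b1 := lt_of_lt_of_le (by positivity) hbX
  have hTr : (1 : ℝ) ≤ T := by exact_mod_cast hN.T1
  have hlaw : IsPr M.law := (hEX V Val a M).1
  have hlaws : IsPr (piW (fun _ : Fin T => M.law)) :=
    hPI.1 (Fin T) (fun _ => Fld a V Val) (fun _ => M.law) (fun _ => hlaw)
  have hpt0 : 0 ≤ M.pt := by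
    refine le_trans ?_ (M.hpt x)
    exact Finset.sum_nonneg fun u _ => Finset.sum_nonneg fun e _ =>
      mul_nonneg (M.hP0 _ _) (ind_nonneg _)
  have hg : ∀ z, 0 ≤ M.gm jm x y z ∧ M.gm jm x y z ≤ 1 := (hRHO V Val a M jm hjm x y).2.1
  have hp : ∀ z, 0 ≤ M.pr jm x y z := fun z => ((hRHO V Val a M jm hjm x y).2.2.1 z).1
  set h : V → ℝ := hvF M jm x y with hh
  have hh0 : ∀ w, 0 ≤ h w := fun w => hvF_nonneg M jm x y w hp hf
  have hX4 : X ^ 4 ≤ b1 ^ (1 / 2 : ℝ) := by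
    have e1 : (X ^ 4) ^ 2 ≤ b1 := by
      rw [← pow_mul]
      exact (pow_le_pow_right₀ hX1 (by norm_num)).trans hbX
    have e2 : ((X ^ 4) ^ 2) ^ (1 / 2 : ℝ) = X ^ 4 := by
      have := Real.pow_rpow_inv_natCast (x := X ^ 4) (by positivity) (n := 2) (by norm_num)
      rw [show (1 / 2 : ℝ) = (((2 : ℕ) : ℝ))⁻¹ by norm_num]
      exact this
    rw [← e2]
    exact Real.rpow_le_rpow (by positivity) e1 (by norm_num)
  have hb8 : 0 < b1 ^ (1 / 2 : ℝ) := lt_of_lt_of_le (by positivity) hX4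
  -- the bad event of colour `t`
  let E : Fin T → (Fin T → Fld a V Val) → Prop := fun t ω =>
    ∑ t' ∈ Finset.univ.filter (· < t), M.tw h (ω t') < 1 / 40 ∧
      M.Zgm jm ω W (X ^ 5 * lam0) t x y < f / 4
  -- one colour
  have hstep : ∀ t ω, Pr M.law (fun η => E t (Function.update ω t η)) ≤ 1 / X ^ 3 := by
    intro t ω
    have hsame : ∀ η : Fld a V Val, ∑ t' ∈ Finset.univ.filter (· < t),
        M.tw h (Function.update ω t η t') = ∑ t' ∈ Finset.univ.filter (· < t), M.tw h (ω t') := by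
      intro η
      refine Finset.sum_congr rfl fun t' ht' => ?_
      rw [Function.update_of_ne]
      exact (Finset.mem_filter.1 ht').2.ne
    by_cases hfair : ∑ t' ∈ Finset.univ.filter (· < t), M.tw h (ω t') < 1 / 40
    swap
    · rw [pr_false]
      · positivity
      · intro η ha
        have := ha.1
        rw [hsame] at this
        exact hfair this
    set D : V → Prop := fun w => ∃ t' < t, M.tch (ω t') w with hDdef
    have hDm : ∑ w, ind (D w) * hvF M jm x y w ≤ 1 / 40 :=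
      (touched M ω t h hh0).trans hfair.le
    have hcA := mass_AAF M jm hP hp hf D hDm
    -- the three error terms
    let U : Fld a V Val → ℝ := fun η => sumL a (fun z => M.pr jm x y z * M.xw η 0 z *
      ind (M.vdis z ∧
      ∃ (i j : ℕ) (s : V × Val) (w u : V) (e : Val), z[i]? = some s ∧
        (s.1 = w ∨ M.ex s.1 s.2 = w) ∧ val η j u = some e ∧ (u = w ∨ M.ex u e = w) ∧
        ¬ (j = i ∧ (u, e) = s)))
    let TX : Fld a V Val → ℝ := fun η => sumL a (fun z => M.pr jm x y z * M.xw η 0 z *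
        ind (∃ s, z[jm]? = some s ∧ X ^ 5 * lam0 * M.ka jm x s.1 < M.ZXm jm η x s.1))
    let TY : Fld a V Val → ℝ := fun η => sumL a (fun z => M.pr jm x y z * M.xw η 0 z *
        ind (∃ s, z[jm]? = some s ∧
          X ^ 5 * lam0 * M.kc jm (M.ex s.1 s.2) y < M.ZYm jm η (M.ex s.1 s.2) y))
    have hnn : ∀ (η : Fld a V Val) (Q : List (V × Val) → Prop),
        0 ≤ sumL a (fun z => M.pr jm x y z * M.xw η 0 z * ind (Q z)) := fun η Q =>
      sumL_nonneg _ _ fun z => mul_nonneg (mul_nonneg (hp z) (xw_nonneg M η z 0))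
        (ind_nonneg _)
    have hBB := hB V Val a M x y (M.gm jm x y) hN.pos (fun z => (hg z).1)
    have hEU : Ex M.law (fun η => U η + TX η + TY η) ≤
        (2 * (a : ℝ) ^ 2 * M.pt + 16 / 3 / X ^ 5) * f := by
      rw [ex_add, ex_add]
      have h2 := hC V Val a M jm (X ^ 5 * lam0) (lam0 * q) x y hjm (by positivity) hN.pos hN.kx
        hN.tr.tx hN.tr.ty
      have h3 : Ex M.law U ≤ 2 * (a : ℝ) ^ 2 * M.pt * f := hBB.1
      have e5 : 2 * (lam0 * q) / (X ^ 5 * lam0) = 2 * q / X ^ 5 := by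
        field_simp
      have e6 : 2 * q / X ^ 5 ≤ 8 / 3 / X ^ 5 * f := by
        have : 8 / 3 / X ^ 5 * f = (8 / 3 * f) / X ^ 5 := by ring
        rw [this]
        exact div_le_div_of_nonneg_right (by linarith) (by positivity)
      have h4 : Ex M.law TX ≤ 8 / 3 / X ^ 5 * f := (h2.1.trans (le_of_eq e5)).trans e6
      have h5 : Ex M.law TY ≤ 8 / 3 / X ^ 5 * f := (h2.2.trans (le_of_eq e5)).trans e6
      have e : (2 * (a : ℝ) ^ 2 * M.pt + 16 / 3 / X ^ 5) * f =
          2 * (a : ℝ) ^ 2 * M.pt * f + 8 / 3 / X ^ 5 * f + 8 / 3 / X ^ 5 * f := by ring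
      rw [e]
      exact add_le_add (add_le_add h3 h4) h5
    have hA' := hA V Val a M x y (M.gm jm x y) (AA M W D x y) ((2 / 5 : ℝ) * f)
      (q / b1 ^ (1 / 2 : ℝ)) hN.pos hg (by positivity) (by positivity) (hN.tr.sm x y)
    have hsub : ∀ η : Fld a V Val, E t (Function.update ω t η) →
        ((sumL a (fun z => M.pw 0 x z y * M.gm jm x y z * M.xw η 0 z * ind (AA M W D x y z)) ≤
          sumL a (fun z => M.pw 0 x z y * M.gm jm x y z * ind (AA M W D x y z)) -
            (2 / 5 : ℝ) * f) ∨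
        f / 4 ≤ U η + TX η + TY η) ∨ (M.tch η x ∨ M.tch η y) := by
      intro η ha
      by_contra hcon
      rw [not_or, not_or, not_or, not_le, not_le] at hcon
      obtain ⟨⟨g1, g2⟩, gx, gy⟩ := hcon
      have g3 := splitF M jm (Function.update ω t η) t W (X ^ 5 * lam0) x y hp
        (by rw [Function.update_self]; exact gx) (by rw [Function.update_self]; exact gy)
      rw [Function.update_self] at g3
      have g4 : (fun w => ∃ t' < t, M.tch (Function.update ω t η t') w) = D := by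
        funext w
        refine propext ⟨?_, ?_⟩
        · rintro ⟨t', ht', hw⟩
          rw [Function.update_of_ne ht'.ne] at hw
          exact ⟨t', ht', hw⟩
        · rintro ⟨t', ht', hw⟩
          refine ⟨t', ht', ?_⟩
          rw [Function.update_of_ne ht'.ne]
          exact hw
      rw [g4] at g3
      have g5 : sumL a (fun z => M.pw 0 x z y * M.gm jm x y z * M.xw η 0 z *
          ind (AA M W D x y z)) ≤
          M.Zgm jm (Function.update ω t η) W (X ^ 5 * lam0) t x y + (U η + TX η + TY η) := g3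
      have g6 := ha.2
      have g7 : (37 / 40 : ℝ) * f ≤
          sumL a (fun z => M.pw 0 x z y * M.gm jm x y z * ind (AA M W D x y z)) := hcA
      linarith
    have hmk := pr_markov hlaw.nn (fun η => U η + TX η + TY η)
      (fun η => add_nonneg (add_nonneg (hnn η _) (hnn η _)) (hnn η _)) (c := f / 4)
      (by positivity)
    have htot : Pr M.law (fun η => E t (Function.update ω t η)) ≤
        (f * (q / b1 ^ (1 / 2 : ℝ)) / ((2 / 5 : ℝ) * f) ^ 2 +
          (2 * (a : ℝ) ^ 2 * M.pt + 16 / 3 / X ^ 5) * f / (f / 4)) +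
          (a * M.pt + a * M.pt) := by
      refine (pr_mono hlaw.nn hsub).trans ((pr_or hlaw.nn _ _).trans (add_le_add
        ((pr_or hlaw.nn _ _).trans (add_le_add hA' ?_))
        ((pr_or hlaw.nn _ _).trans (add_le_add (hBB.2 x) (hBB.2 y)))))
      refine hmk.trans ?_
      exact div_le_div_of_nonneg_right hEU (by positivity)
    refine htot.trans ?_
    have k1 : f * (q / b1 ^ (1 / 2 : ℝ)) / ((2 / 5 : ℝ) * f) ^ 2 ≤ 9 / X ^ 4 := by
      have e : f * (q / b1 ^ (1 / 2 : ℝ)) / ((2 / 5 : ℝ) * f) ^ 2 =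
          (25 / 4) * (q / f) / b1 ^ (1 / 2 : ℝ) := by
        field_simp
        ring
      rw [e]
      have e2 : q / f ≤ 4 / 3 := by
        rw [div_le_div_iff₀ hf (by norm_num)]
        linarith
      have e3 : 0 ≤ q / f := by positivity
      exact div_le_div₀ (by norm_num) (by linarith) (by positivity) hX4
    have hX5 : 16 / 3 / X ^ 5 ≤ 1 / X ^ 4 := by
      rw [div_le_div_iff₀ (by positivity) (by positivity)]
      have : X ^ 5 = X ^ 4 * X := by ring
      rw [this]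
      have : 0 < X ^ 4 := by positivity
      nlinarith
    have e2 := hN.ptX
    have k2 : (2 * (a : ℝ) ^ 2 * M.pt + 16 / 3 / X ^ 5) * f / (f / 4) ≤ 5 / X ^ 4 := by
      have e : (2 * (a : ℝ) ^ 2 * M.pt + 16 / 3 / X ^ 5) * f / (f / 4) =
          8 * (a : ℝ) ^ 2 * M.pt + 4 * (16 / 3 / X ^ 5) := by
        field_simp
        ring
      rw [e]
      have e3 : 8 * (a : ℝ) ^ 2 * M.pt ≤ 8 * (a : ℝ) ^ 2 * T * M.pt := by
        have : 0 ≤ 8 * (a : ℝ) ^ 2 * M.pt := by positivity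
        nlinarith
      have e4 : 5 / X ^ 4 = 1 / X ^ 4 + 4 * (1 / X ^ 4) := by ring
      rw [e4]
      linarith
    have k4 : a * M.pt + a * M.pt ≤ 1 / X ^ 4 := by
      have e3 : (a : ℝ) * M.pt + a * M.pt ≤ 8 * (a : ℝ) ^ 2 * T * M.pt := by
        have h1 : (a : ℝ) * M.pt ≤ (a : ℝ) ^ 2 * M.pt := by
          have : 0 ≤ (a : ℝ) * M.pt := by positivity
          nlinarith
        have h2 : (a : ℝ) ^ 2 * M.pt ≤ (a : ℝ) ^ 2 * T * M.pt := by
          have : 0 ≤ (a : ℝ) ^ 2 * M.pt := by positivity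
          nlinarith
        have h3 : 0 ≤ (a : ℝ) ^ 2 * T * M.pt := by positivity
        linarith
      exact e3.trans e2
    have k3 : 15 / X ^ 4 ≤ 1 / X ^ 3 := by
      rw [div_le_div_iff₀ (by positivity) (by positivity)]
      have : X ^ 4 = X ^ 3 * X := by ring
      rw [this]
      have : 0 < X ^ 3 := by positivity
      nlinarith
    have e5 : 15 / X ^ 4 = 9 / X ^ 4 + 5 / X ^ 4 + 1 / X ^ 4 := by ring
    linarith
  have hseq := hSEQ T (Fld a V Val) M.law hlaw E (1 / X ^ 3) (by positivity) (by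
    intro t ω ω' hω
    show (_ ∧ _) ↔ (_ ∧ _)
    rw [Zgm_congr M jm ω ω' t hω]
    have e : ∑ t' ∈ Finset.univ.filter (· < t), M.tw h (ω t') =
        ∑ t' ∈ Finset.univ.filter (· < t), M.tw h (ω' t') := by
      refine Finset.sum_congr rfl fun t' ht' => ?_
      rw [hω t' (Finset.mem_filter.1 ht').2.le]
    rw [e]) hstep
  -- the touched vertices
  have hh1 : 0 < X ^ 2 / b1 := by positivity
  have hlow := hD V Val a M T h (2 * (a : ℝ)) (X ^ 2 / b1) (1 / 80) hh0 (by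
      intro w
      have := hP.hh w
      rw [hh, hvF, div_le_iff₀ hf]
      exact this) hh1 (by norm_num) (sum_hvF M jm x y hp hf) (by
      have e2 := hN.ptX
      have e3 : 1 / X ^ 4 ≤ 1 / 80 := by
        refine one_div_le_one_div_of_le (by norm_num) ?_
        have : X ^ 1 ≤ X ^ 4 := pow_le_pow_right₀ hX1 (by norm_num)
        rw [pow_one] at this
        linarith
      have e4 : 2 * (T : ℝ) * a * M.pt * (2 * (a : ℝ)) = (8 * (a : ℝ) ^ 2 * T * M.pt) / 2 := by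
        ring
      rw [e4]
      have : 0 ≤ 8 * (a : ℝ) ^ 2 * T * M.pt := by positivity
      linarith)
  have hexp : Real.exp (-((1 / 80 : ℝ) / (8 * (X ^ 2 / b1)))) ≤ 1 / n ^ 1000 := by
    have h1 := hN.en ((1 / 80 : ℝ) / (8 * (X ^ 2 / b1))) (by
      rw [le_div_iff₀ (by positivity)]
      have e1 : X ^ 4 ≤ b1 := (pow_le_pow_right₀ hX1 (by norm_num)).trans hbX
      have e2 : X * (8 * (X ^ 2 / b1)) = 8 * X ^ 3 / b1 := by ring
      rw [e2, div_le_iff₀ hb0]
      have e3 : X ^ 4 = X ^ 3 * X := by ring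
      have e4 : 0 < X ^ 3 := by positivity
      nlinarith)
    rw [le_div_iff₀ (by positivity)]
    exact h1
  have hall : Pr (piW (fun _ : Fin T => M.law))
      (fun ω => ∀ t, M.Zgm jm ω W (X ^ 5 * lam0) t x y < f / 4) ≤
      1 / n ^ 1000 + (1 / X ^ 3) ^ T := by
    refine (pr_mono hlaws.nn (F := fun ω => (2 * (1 / 80 : ℝ) ≤ ∑ t, M.tw h (ω t)) ∨
      ∀ t, E t ω) ?_).trans ((pr_or hlaws.nn _ _).trans (add_le_add (hlow.trans hexp) hseq))
    intro ω hω
    by_cases c : 2 * (1 / 80 : ℝ) ≤ ∑ t, M.tw h (ω t)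
    · exact Or.inl c
    · right
      intro t
      refine ⟨?_, hω t⟩
      refine lt_of_le_of_lt ?_ (lt_of_lt_of_eq (not_le.1 c) (by norm_num))
      refine Finset.sum_le_sum_of_subset_of_nonneg (Finset.filter_subset _ _) ?_
      intro t' _ _
      exact Finset.sum_nonneg fun j _ => Finset.sum_nonneg fun u _ => Finset.sum_nonneg fun e _ =>
        mul_nonneg (ind_nonneg _) (add_nonneg (hh0 _) (hh0 _))
  refine hall.trans ?_
  have p1 : (1 / X ^ 3) ^ T ≤ 1 / n ^ 20 := by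
    rw [one_div_pow, ← pow_mul]
    exact one_div_le_one_div_of_le (by positivity) hN.nT
  have p2 : 1 / n ^ 1000 ≤ 1 / n ^ 20 :=
    one_div_le_one_div_of_le (by positivity) (pow_le_pow_right₀ hn1 (by norm_num))
  have p3 : 1 / n ^ 20 + 1 / n ^ 20 ≤ 1 / n ^ 14 := by
    rw [← add_div, div_le_div_iff₀ (by positivity) (by positivity)]
    have e1 : n ^ 20 = n ^ 14 * n ^ 6 := by ring
    have e2 : n ^ 1 ≤ n ^ 6 := pow_le_pow_right₀ hn1 (by norm_num)
    rw [pow_one] at e2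
    have e3 : 0 < n ^ 14 := by positivity
    rw [e1]
    nlinarith
  linarith

end Pool.Agent.Lib.MP_688fd0_co.TF.H35
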