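import Pool.Agent.Lib.MP_688fd0_co.TF.Iface5
import Pool.Agent.Lib.MP_688fd0_co.TE.H35.Ppd

/-!
# Theorem F, module PPDF: the Poincare inequality (5.1)
-/

namespace Pool.Agent.Lib.MP_688fd0_co.TF.H35.PpdF

open Pool.Agent.Lib.MP_688fd0_co.TE
open Pool.Agent.Lib.MP_688fd0_co.TE.H35.PpdAux (sumL_mono sumL_congr sumL_mul sumL_add sumL_sum
  tele_sum lw_nonneg fn_nonneg gn_nonneg top_nonneg gop_nonneg xw_val UM_nonneg UM_symm pr_zero)

universe u v w

set_option linter.unusedSectionVars false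

/-! ### Kernels and sums over arcs -/

section arcs

variable {G : Type u} [Group G] [Fintype G] [DecidableEq G] {c : Ctx G} {N : ℕ} (g : Gad c N)
  {m : ℕ} (lv : G → ZMod m) (u v : G → ℝ) (i : ZMod m)

theorem aB_nonneg (x y : G) : 0 ≤ g.aB lv x y := by
  unfold Gad.aB
  refine mul_nonneg (div_nonneg (Nat.cast_nonneg _) (mul_nonneg (by norm_num) ?_)) (ind_nonneg _)
  exact Nat.cast_nonneg _

theorem aC_nonneg (hX : 0 < c.X) (x y : G) : 0 ≤ g.aC lv x y := by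
  unfold Gad.aC
  exact mul_nonneg (div_nonneg (div_nonneg zero_le_one (pow_nonneg hX.le _))
    (Nat.cast_nonneg _)) (ind_nonneg _)

theorem genB (hX : 0 < c.X) (hm : 0 < (m : ℝ)) (hb : 0 < c.b) (cond : G → G → Prop)
    (hc : ∀ x y, cond x y → g.RR x ∧ g.CC y ∧ ¬ (g.W x ∧ g.W y) ∧ lv x = i ∧ lv y = i + 1) :
    ∑ x, ∑ y, ind (cond x y) * UM c.B x y * |u x - v y| ≤ 2 / m * g.bc lv u v i := by
  unfold Gad.bc
  rw [Finset.mul_sum]
  refine Finset.sum_le_sum fun x _ => ?_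
  rw [Finset.mul_sum]
  refine Finset.sum_le_sum fun y _ => ?_
  have hB := aB_nonneg g lv x y
  have hC := aC_nonneg g lv hX x y
  have hd := abs_nonneg (u x - v y)
  have hi := ind_nonneg (lv x = i ∧ lv y = i + 1)
  by_cases h : cond x y
  · obtain ⟨h1, h2, h3, h4, h5⟩ := hc x y h
    rw [ind_of h, ind_of ⟨h4, h5⟩]
    have h6 : UM c.B x y = 2 / m * g.aB lv x y := by
      show ind (x⁻¹ * y ∈ c.B) / c.b = _
      unfold Gad.aB
      by_cases h7 : x⁻¹ * y ∈ c.B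
      · rw [ind_of h7, ind_of ⟨h1, h2, h7, h3, Or.inl (by rw [h4, h5])⟩]
        field_simp
      · rw [ind_not h7, ind_not (fun h8 => h7 h8.2.2.1)]
        simp
    rw [h6]
    have h8 : 0 ≤ 2 / (m : ℝ) * (g.aC lv x y * |u x - v y|) :=
      mul_nonneg (by positivity) (mul_nonneg hC hd)
    calc 1 * (2 / (m : ℝ) * g.aB lv x y) * |u x - v y|
        ≤ 1 * (2 / (m : ℝ) * g.aB lv x y) * |u x - v y| +
          2 / (m : ℝ) * (g.aC lv x y * |u x - v y|) := by linarith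
      _ = 2 / (m : ℝ) * (1 * (g.aB lv x y + g.aC lv x y) * |u x - v y|) := by ring
  · rw [ind_not h, zero_mul, zero_mul]
    exact mul_nonneg (by positivity) (mul_nonneg (mul_nonneg hi (add_nonneg hB hC)) hd)

theorem genC (hX : 0 < c.X) (hi0 : i = 0) (cond : G → G → Prop)
    (hc : ∀ x y, cond x y → ¬ g.W x ∧ ¬ g.W y ∧ lv x = i ∧ lv y = i + 1) :
    ∑ x, ∑ y, ind (cond x y) * UM c.C x y * |u x - v y| ≤ c.X ^ 100 * g.bc lv u v i := by
  unfold Gad.bc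
  rw [Finset.mul_sum]
  refine Finset.sum_le_sum fun x _ => ?_
  rw [Finset.mul_sum]
  refine Finset.sum_le_sum fun y _ => ?_
  have hB := aB_nonneg g lv x y
  have hC := aC_nonneg g lv hX x y
  have hd := abs_nonneg (u x - v y)
  have hi := ind_nonneg (lv x = i ∧ lv y = i + 1)
  have hX1 : 0 < c.X ^ 100 := pow_pos hX _
  by_cases h : cond x y
  · obtain ⟨h1, h2, h4, h5⟩ := hc x y h
    rw [ind_of h, ind_of ⟨h4, h5⟩]
    have h6 : UM c.C x y = c.X ^ 100 * g.aC lv x y := by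
      show ind (x⁻¹ * y ∈ c.C) / _ = _
      unfold Gad.aC
      by_cases h7 : x⁻¹ * y ∈ c.C
      · rw [ind_of h7, ind_of ⟨h1, h2, h7, by rw [h4, hi0], by rw [h5, hi0, zero_add]⟩]
        field_simp
      · rw [ind_not h7, ind_not (fun h8 => h7 h8.2.2.1)]
        simp
    rw [h6]
    have h8 : 0 ≤ c.X ^ 100 * (g.aB lv x y * |u x - v y|) :=
      mul_nonneg hX1.le (mul_nonneg hB hd)
    calc 1 * (c.X ^ 100 * g.aC lv x y) * |u x - v y|
        ≤ 1 * (c.X ^ 100 * g.aC lv x y) * |u x - v y| +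
          c.X ^ 100 * (g.aB lv x y * |u x - v y|) := by linarith
      _ = c.X ^ 100 * (1 * (g.aB lv x y + g.aC lv x y) * |u x - v y|) := by ring
  · rw [ind_not h, zero_mul, zero_mul]
    exact mul_nonneg hX1.le (mul_nonneg (mul_nonneg hi (add_nonneg hB hC)) hd)

/-- The bounding kernel. -/
noncomputable def K2 (c : Ctx G) (h e : ℝ) (x y : G) : ℝ := h * UM c.B x y + e * UM c.C x y

theorem K2_symm (c : Ctx G) (h e : ℝ) (x y : G) : K2 c h e x y = K2 c h e y x := by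
  unfold K2
  rw [UM_symm c.hB x y, UM_symm c.hC x y]

/-- Sum over the arcs of class `i` between vertices outside of the gadgets. -/
noncomputable def SK (h e : ℝ) : ℝ :=
  ∑ x, ∑ y, ind ((¬ g.W x ∧ lv x = i) ∧ (¬ g.W y ∧ lv y = i + 1)) * K2 c h e x y * |u x - v y|

theorem SK_le (hX : 0 < c.X) (hm : 0 < (m : ℝ)) (hb : 0 < c.b) (h e : ℝ) (h0 : 0 ≤ h)
    (e0 : 0 ≤ e) (he : e = 0 ∨ i = 0) :
    SK g lv u v i h e ≤ (h * (2 / m) + e * c.X ^ 100) * g.bc lv u v i := by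
  have h1 : SK g lv u v i h e =
      h * (∑ x, ∑ y, ind ((¬ g.W x ∧ lv x = i) ∧ (¬ g.W y ∧ lv y = i + 1)) * UM c.B x y *
        |u x - v y|) +
      e * (∑ x, ∑ y, ind ((¬ g.W x ∧ lv x = i) ∧ (¬ g.W y ∧ lv y = i + 1)) * UM c.C x y *
        |u x - v y|) := by
    unfold SK K2
    rw [Finset.mul_sum, Finset.mul_sum, ← Finset.sum_add_distrib]
    refine Finset.sum_congr rfl fun x _ => ?_
    rw [Finset.mul_sum, Finset.mul_sum, ← Finset.sum_add_distrib]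
    refine Finset.sum_congr rfl fun y _ => ?_
    ring
  rw [h1]
  have h2 := mul_le_mul_of_nonneg_left (genB g lv u v i hX hm hb
    (fun x y => (¬ g.W x ∧ lv x = i) ∧ (¬ g.W y ∧ lv y = i + 1))
    (fun x y hxy => ⟨Or.inl hxy.1.1, Or.inl hxy.2.1, fun h => hxy.1.1 h.1, hxy.1.2, hxy.2.2⟩)) h0
  have h3 : e * (∑ x, ∑ y, ind ((¬ g.W x ∧ lv x = i) ∧ (¬ g.W y ∧ lv y = i + 1)) *
      UM c.C x y * |u x - v y|) ≤ e * (c.X ^ 100 * g.bc lv u v i) := by
    rcases he with he | he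
    · rw [he, zero_mul, zero_mul]
    · exact mul_le_mul_of_nonneg_left (genC g lv u v i hX he
        (fun x y => (¬ g.W x ∧ lv x = i) ∧ (¬ g.W y ∧ lv y = i + 1))
        (fun x y hxy => ⟨hxy.1.1, hxy.2.1, hxy.1.2, hxy.2.2⟩)) e0
  calc _ ≤ h * (2 / m * g.bc lv u v i) + e * (c.X ^ 100 * g.bc lv u v i) := add_le_add h2 h3
    _ = _ := by ring

end arcs

/-! ### The model -/

section model

variable {G : Type u} [Group G] [Fintype G] [DecidableEq G] {c : Ctx G} {N : ℕ} (g : Gad c N)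
  {m : ℕ} [NeZero m] (lv : G → ZMod m) (u v : G → ℝ) (i : ZMod m) {τ : Bool} {ρ : ℝ}
  {M : LM G (ZMod m) (6 * c.k + 2)}

/-- Level of the slot `j`. -/
def lj (i : ZMod m) (j : ℕ) : ZMod m := if Even j then i + 1 else i

/-- Potential at the position `p`. -/
def Fp (u v : G → ℝ) (p : ℕ) (w : G) : ℝ := if Even p then u w else v w

theorem lw_le (hM : c.IsLev τ ρ m i M) (hρ : 0 < ρ) (hm : 0 < (m : ℝ))
    (ω : Fld (6 * c.k + 2) G (ZMod m)) (j : ℕ) (x : G) (e : ZMod m) :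
    M.lw ω j x e ≤ M.H0 * ind (e = lj i j) := by
  unfold LM.lw
  rw [hM.kap, hM.P, hM.H0]
  have h1 := ind_nonneg (e = lj i j)
  have h2 : ind (val ω j x = some e) / (ρ / m) ≤ m / ρ := by
    calc ind (val ω j x = some e) / (ρ / m) ≤ 1 / (ρ / m) :=
          div_le_div_of_nonneg_right (ind_le_one _) (div_pos hρ hm).le
      _ = m / ρ := by rw [one_div_div]
  calc ind (e = if Even j then i + 1 else i) * (ind (val ω j x = some e) / (ρ / m))
      ≤ ind (e = lj i j) * (m / ρ) := mul_le_mul_of_nonneg_left h2 h1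
    _ = _ := mul_comm _ _

/-- Coefficient of `UM B` (without `q`). -/
noncomputable def hh (τ : Bool) (M : LM G (ZMod m) (6 * c.k + 2)) : ℝ :=
  if τ then c.X * M.H0 else 10

/-- Coefficient of `UM C` (without `q`). -/
noncomputable def ee (τ : Bool) : ℝ := if τ then 10 else 0

/-- The constant of one colour. -/
noncomputable def kap1 (τ : Bool) (M : LM G (ZMod m) (6 * c.k + 2)) : ℝ :=
  M.H0 * hh τ M * (2 / m)

/-- The constant of one colour and one step. -/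
noncomputable def kap2 (τ : Bool) (M : LM G (ZMod m) (6 * c.k + 2)) : ℝ :=
  M.H0 ^ 2 * (c.X / m) * (hh τ M * (2 / m) + ee τ * c.X ^ 100)

theorem hh_ge (hX : 10 ≤ c.X) (τ : Bool) (M : LM G (ZMod m) (6 * c.k + 2)) : 10 ≤ hh τ M := by
  have hH := M.hH0
  unfold hh
  cases τ with
  | false => norm_num
  | true =>
    simp only [if_true]
    nlinarith

theorem ee_nonneg (τ : Bool) : 0 ≤ ee τ := by
  unfold ee
  split <;> norm_num

theorem kap2_nonneg (hX : 10 ≤ c.X) (τ : Bool) (M : LM G (ZMod m) (6 * c.k + 2)) :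
    0 ≤ kap2 τ M := by
  have h1 := hh_ge hX τ M
  have h2 := M.hH0
  have h4 := ee_nonneg τ
  unfold kap2
  have h3 : 0 ≤ 2 / (m : ℝ) := div_nonneg (by norm_num) (Nat.cast_nonneg _)
  have h5 : 0 ≤ c.X / (m : ℝ) := div_nonneg (by linarith) (Nat.cast_nonneg _)
  exact mul_nonneg (mul_nonneg (by positivity) h5)
    (add_nonneg (mul_nonneg (by linarith) h3) (mul_nonneg h4 (by positivity)))

theorem C_eq (hM : c.IsLev τ ρ m i M) (j : ℕ) (x y : G) :
    M.C j x y = if (j + 1) % 3 = 2 then WM c.B c.C τ x y else UM c.B x y := by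
  rw [hM.inst.C, one_mul]
  unfold Ctx.cc cF
  split <;> rfl

theorem acb (hM : c.IsLev τ ρ m i M) (hX : 10 ≤ c.X) (hm : 0 < (m : ℝ)) (q : ℝ) (hq : 0 < q)
    (j : ℕ) (A : ℝ) (w w' : G) (hA1 : A ≤ c.X / m * M.Eb c.jl c.X q j (j + 1)) :
    M.C (j + 1) w w' * A ≤
      K2 c (c.X / m * (hh τ M * q)) (c.X / m * (ee τ * q)) w w' := by
  have hH := M.hH0
  have hU := UM_nonneg c.B w w'
  have hV := UM_nonneg c.C w w'
  have hXm : 0 < c.X / m := div_pos (by linarith) hm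
  have hHX : 10 ≤ c.X * M.H0 := by nlinarith
  have hsp : ∀ j, M.sp j ↔ (τ = true → (j + 1) % 3 ≠ 2) := fun j => by
    rw [hM.inst.sp, one_mul]
  rw [C_eq i hM]
  unfold K2 hh ee
  cases τ with
  | false =>
    have hs : ∀ j, M.sp j := fun j => (hsp j).2 (fun h => by simp at h)
    have hE : M.Eb c.jl c.X q j (j + 1) = 10 * q := by
      unfold LM.Eb
      exact if_pos ⟨hs _, Or.inl (hs _)⟩
    rw [hE] at hA1
    have h2 : (if (j + 1 + 1) % 3 = 2 then WM c.B c.C false w w' else UM c.B w w') =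
        UM c.B w w' := by
      unfold WM
      simp
    rw [h2]
    simp only [Bool.false_eq_true, if_false, zero_mul, mul_zero, add_zero]
    calc UM c.B w w' * A ≤ UM c.B w w' * (c.X / m * (10 * q)) :=
          mul_le_mul_of_nonneg_left hA1 hU
      _ = _ := mul_comm _ _
  | true =>
    simp only [if_true]
    by_cases h3 : (j + 1 + 1) % 3 = 2
    · have hE : M.Eb c.jl c.X q j (j + 1) = 10 * q := by
        unfold LM.Eb
        exact if_pos ⟨(hsp _).2 (fun _ => by omega), Or.inl ((hsp _).2 (fun _ => by omega))⟩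
      rw [hE] at hA1
      rw [if_pos h3]
      have h2 : WM c.B c.C true w w' = 1 / 2 * (UM c.B w w' + UM c.C w w') := by
        unfold WM
        simp [Matrix.smul_apply, Matrix.add_apply]
      rw [h2]
      have h4 : 1 / 2 * (UM c.B w w' + UM c.C w w') * A ≤
          1 / 2 * (UM c.B w w' + UM c.C w w') * (c.X / m * (10 * q)) :=
        mul_le_mul_of_nonneg_left hA1 (by positivity)
      refine h4.trans ?_
      have h5 : 0 ≤ c.X / m * q * UM c.B w w' := by positivity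
      have h6 : 0 ≤ c.X / m * q * UM c.C w w' := by positivity
      have h7 : c.X / m * q * UM c.B w w' * 10 ≤ c.X / m * q * UM c.B w w' * (c.X * M.H0) :=
        mul_le_mul_of_nonneg_left hHX h5
      linarith
    · rw [if_neg h3]
      have hE : M.Eb c.jl c.X q j (j + 1) ≤ c.X * M.H0 * q := by
        unfold LM.Eb
        split
        · exact mul_le_mul_of_nonneg_right hHX hq.le
        · exact le_rfl
      have h4 : A ≤ c.X / m * (c.X * M.H0 * q) :=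
        hA1.trans (mul_le_mul_of_nonneg_left hE hXm.le)
      have h5 : UM c.B w w' * A ≤ UM c.B w w' * (c.X / m * (c.X * M.H0 * q)) :=
        mul_le_mul_of_nonneg_left h4 hU
      have h6 : 0 ≤ c.X / m * (10 * q) * UM c.C w w' := by positivity
      linarith

theorem sum_lab (P : G → Prop) (ℓ : ZMod m) (f : G → ℝ) :
    ∑ s : G × ZMod m, ind (P s.1 ∧ lv s.1 = s.2) * ind (s.2 = ℓ) * f s.1 =
      ∑ w, ind (P w ∧ lv w = ℓ) * f w := by
  rw [Fintype.sum_prod_type]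
  refine Finset.sum_congr rfl fun w _ => ?_
  rw [Finset.sum_eq_single ℓ]
  · show ind (P w ∧ lv w = ℓ) * ind (ℓ = ℓ) * f w = _
    rw [ind_of rfl, mul_one]
  · intro l _ hl
    show ind (P w ∧ lv w = l) * ind (l = ℓ) * f w = 0
    rw [ind_not hl, mul_zero, zero_mul]
  · intro h
    exact absurd (Finset.mem_univ _) h

/-- The site condition. -/
def Qs (s : G × ZMod m) : Prop := ¬ g.W s.1 ∧ lv s.1 = s.2

/-- Bilinear sum over two consecutive sites. -/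
noncomputable def Bil (M : LM G (ZMod m) (6 * c.k + 2)) (ω : Fld (6 * c.k + 2) G (ZMod m)) (j : ℕ)
    (H : G → G → ℝ) : ℝ :=
  ∑ s : G × ZMod m, ∑ s' : G × ZMod m, ind (Qs g lv s) * ind (Qs g lv s') *
    (M.lw ω j s.1 s.2 * M.C (j + 1) (M.ex s.1 s.2) s'.1 * M.lw ω (j + 1) s'.1 s'.2 *
      H s.1 (M.ex s'.1 s'.2)) * |Fp u v (j + 1) s.1 - Fp u v (j + 2) s'.1|

theorem bil_le (hM : c.IsLev τ ρ m i M) (hρ : 0 < ρ) (hm : 0 < (m : ℝ))
    (ω : Fld (6 * c.k + 2) G (ZMod m)) (j : ℕ) (H : G → G → ℝ) (hH0 : ∀ w w', 0 ≤ H w w')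
    (h e : ℝ) (hK : ∀ w w', M.C (j + 1) w w' * H w w' ≤ K2 c h e w w') :
    Bil g lv u v M ω j H ≤ M.H0 ^ 2 * SK g lv u v i h e := by
  have hH := M.hH0
  have hK0 : ∀ w w', 0 ≤ K2 c h e w w' := fun w w' =>
    (mul_nonneg (M.hC0 _ _ _) (hH0 w w')).trans (hK w w')
  have h1 : Bil g lv u v M ω j H ≤ ∑ s : G × ZMod m, ∑ s' : G × ZMod m,
      ind (¬ g.W s.1 ∧ lv s.1 = s.2) * ind (s.2 = lj i j) *
        (ind (¬ g.W s'.1 ∧ lv s'.1 = s'.2) * ind (s'.2 = lj i (j + 1)) *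
        (M.H0 ^ 2 * (K2 c h e s.1 s'.1 * |Fp u v (j + 1) s.1 - Fp u v (j + 2) s'.1|))) := by
    unfold Bil
    refine Finset.sum_le_sum fun s _ => Finset.sum_le_sum fun s' _ => ?_
    rw [hM.ex, hM.ex]
    have hq1 := ind_nonneg (Qs g lv s)
    have hq2 := ind_nonneg (Qs g lv s')
    have hd := abs_nonneg (Fp u v (j + 1) s.1 - Fp u v (j + 2) s'.1)
    have hl1 := lw_le i hM hρ hm ω j s.1 s.2
    have hl2 := lw_le i hM hρ hm ω (j + 1) s'.1 s'.2
    have hl3 := lw_nonneg M ω j s.1 s.2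
    have hl4 := lw_nonneg M ω (j + 1) s'.1 s'.2
    have hi1 := ind_nonneg (s.2 = lj i j)
    have hll := mul_le_mul hl1 hl2 hl4 (mul_nonneg (by linarith) hi1)
    have hKK := hK s.1 s'.1
    have hmain := mul_le_mul hKK hll (mul_nonneg hl3 hl4) (hK0 s.1 s'.1)
    calc ind (Qs g lv s) * ind (Qs g lv s') *
        (M.lw ω j s.1 s.2 * M.C (j + 1) s.1 s'.1 * M.lw ω (j + 1) s'.1 s'.2 *
        H s.1 s'.1) * |Fp u v (j + 1) s.1 - Fp u v (j + 2) s'.1|
        = ind (Qs g lv s) * ind (Qs g lv s') * |Fp u v (j + 1) s.1 - Fp u v (j + 2) s'.1| *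
          (M.C (j + 1) s.1 s'.1 * H s.1 s'.1 *
            (M.lw ω j s.1 s.2 * M.lw ω (j + 1) s'.1 s'.2)) := by ring
      _ ≤ ind (Qs g lv s) * ind (Qs g lv s') * |Fp u v (j + 1) s.1 - Fp u v (j + 2) s'.1| *
          (K2 c h e s.1 s'.1 *
            (M.H0 * ind (s.2 = lj i j) * (M.H0 * ind (s'.2 = lj i (j + 1))))) :=
          mul_le_mul_of_nonneg_left hmain (mul_nonneg (mul_nonneg hq1 hq2) hd)
      _ = _ := by
          unfold Qs
          ring
  have h2 : ∑ s : G × ZMod m, ∑ s' : G × ZMod m,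
      ind (¬ g.W s.1 ∧ lv s.1 = s.2) * ind (s.2 = lj i j) *
        (ind (¬ g.W s'.1 ∧ lv s'.1 = s'.2) * ind (s'.2 = lj i (j + 1)) *
        (M.H0 ^ 2 * (K2 c h e s.1 s'.1 * |Fp u v (j + 1) s.1 - Fp u v (j + 2) s'.1|))) =
      ∑ w, ∑ w', ind (¬ g.W w ∧ lv w = lj i j) * (ind (¬ g.W w' ∧ lv w' = lj i (j + 1)) *
        (M.H0 ^ 2 * (K2 c h e w w' * |Fp u v (j + 1) w - Fp u v (j + 2) w'|))) := by
    simp_rw [← Finset.mul_sum]
    rw [sum_lab lv (fun w => ¬ g.W w) (lj i j) (fun w => ∑ s' : G × ZMod m,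
      (ind (¬ g.W s'.1 ∧ lv s'.1 = s'.2) * ind (s'.2 = lj i (j + 1)) *
        (M.H0 ^ 2 * (K2 c h e w s'.1 * |Fp u v (j + 1) w - Fp u v (j + 2) s'.1|))))]
    refine Finset.sum_congr rfl fun w _ => ?_
    rw [sum_lab lv (fun w => ¬ g.W w) (lj i (j + 1)) (fun w' =>
        (M.H0 ^ 2 * (K2 c h e w w' * |Fp u v (j + 1) w - Fp u v (j + 2) w'|)))]
  refine h1.trans (le_of_eq ?_)
  rw [h2]
  unfold SK
  by_cases hj : Even j
  · have e1 : lj i j = i + 1 := if_pos hj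
    have e2 : lj i (j + 1) = i := if_neg (by simpa [Nat.even_add_one] using hj)
    have e3 : ∀ w, Fp u v (j + 1) w = v w := fun w =>
      if_neg (by simpa [Nat.even_add_one] using hj)
    have e4 : ∀ w, Fp u v (j + 2) w = u w := fun w =>
      if_pos (by simpa [Nat.even_add] using hj)
    rw [Finset.sum_comm, Finset.mul_sum]
    refine Finset.sum_congr rfl fun x _ => ?_
    rw [Finset.mul_sum]
    refine Finset.sum_congr rfl fun y _ => ?_
    rw [e1, e2, e3, e4, K2_symm c h e y x, ind_and (¬ g.W x ∧ lv x = i), abs_sub_comm]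
    ring
  · have e1 : lj i j = i := if_neg hj
    have e2 : lj i (j + 1) = i + 1 := if_pos (by simpa [Nat.even_add_one] using hj)
    have e3 : ∀ w, Fp u v (j + 1) w = u w := fun w =>
      if_pos (by simpa [Nat.even_add_one] using hj)
    have e4 : ∀ w, Fp u v (j + 2) w = v w := fun w =>
      if_neg (by simpa [Nat.even_add] using hj)
    rw [Finset.mul_sum]
    refine Finset.sum_congr rfl fun x _ => ?_
    rw [Finset.mul_sum]
    refine Finset.sum_congr rfl fun y _ => ?_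
    rw [e1, e2, e3, e4, ind_and (¬ g.W x ∧ lv x = i)]
    ring

theorem bil_nonneg (M : LM G (ZMod m) (6 * c.k + 2)) (ω : Fld (6 * c.k + 2) G (ZMod m)) (j : ℕ)
    (H : G → G → ℝ) (hH : ∀ w w', 0 ≤ H w w') : 0 ≤ Bil g lv u v M ω j H := by
  unfold Bil
  refine Finset.sum_nonneg fun s _ => Finset.sum_nonneg fun s' _ => ?_
  refine mul_nonneg (mul_nonneg (mul_nonneg (ind_nonneg _) (ind_nonneg _)) ?_) (abs_nonneg _)
  exact mul_nonneg (mul_nonneg (mul_nonneg (lw_nonneg _ _ _ _ _)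
    (M.hC0 _ _ _)) (lw_nonneg _ _ _ _ _)) (hH _ _)

theorem bil_lin (M : LM G (ZMod m) (6 * c.k + 2)) (ω : Fld (6 * c.k + 2) G (ZMod m)) (j : ℕ)
    {κ : Type w} (S : Finset κ) (α : κ → ℝ) (H : κ → G → G → ℝ) :
    ∑ x ∈ S, α x * Bil g lv u v M ω j (H x) =
      Bil g lv u v M ω j (fun w w' => ∑ x ∈ S, α x * H x w w') := by
  unfold Bil
  simp only [Finset.mul_sum, Finset.sum_mul]
  rw [Finset.sum_comm]
  refine Finset.sum_congr rfl fun s _ => ?_
  rw [Finset.sum_comm]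
  refine Finset.sum_congr rfl fun s' _ => Finset.sum_congr rfl fun x _ => ?_
  ring

theorem bc_nonneg (hX : 0 < c.X) : 0 ≤ g.bc lv u v i := by
  unfold Gad.bc
  exact Finset.sum_nonneg fun x _ => Finset.sum_nonneg fun y _ =>
    mul_nonneg (mul_nonneg (ind_nonneg _) (add_nonneg (aB_nonneg g lv x y)
      (aC_nonneg g lv hX x y))) (abs_nonneg _)

theorem bil_sum (hM : c.IsLev τ ρ m i M) (hρ : 0 < ρ) (hX : 10 ≤ c.X) (hm : 0 < (m : ℝ))
    (hb : 0 < c.b) (hi : τ = true → i = 0) (q : ℝ) (hq : 0 < q)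
    (ω : Fld (6 * c.k + 2) G (ZMod m)) (j : ℕ) (H : G → G → ℝ) (hH : ∀ w w', 0 ≤ H w w')
    (hE : ∀ w w', H w w' ≤ c.X / m * M.Eb c.jl c.X q j (j + 1)) :
    Bil g lv u v M ω j H ≤ q * kap2 τ M * g.bc lv u v i := by
  have h3 : 0 < c.X / (m : ℝ) := div_pos (by linarith) hm
  have h4 := hh_ge hX τ M
  have h5 := ee_nonneg τ
  have h1 := bil_le g lv u v i hM hρ hm ω j H hH (c.X / m * (hh τ M * q)) (c.X / m * (ee τ * q))
    (fun w w' => acb i hM hX hm q hq j (H w w') w w' (hE w w'))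
  have h6 := SK_le g lv u v i (by linarith) hm hb (c.X / m * (hh τ M * q)) (c.X / m * (ee τ * q))
    (mul_nonneg h3.le (mul_nonneg (by linarith) hq.le)) (mul_nonneg h3.le (mul_nonneg h5 hq.le))
    (by
      cases τ with
      | false =>
        left
        unfold ee
        simp
      | true => exact Or.inr (hi rfl))
  refine h1.trans ((mul_le_mul_of_nonneg_left h6 (by positivity)).trans (le_of_eq ?_))
  unfold kap2
  ring

/-- The first step. -/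
noncomputable def EX (M : LM G (ZMod m) (6 * c.k + 2)) (ω : Fld (6 * c.k + 2) G (ZMod m))
    (B : G → G → ℝ) (x : G) : ℝ :=
  ∑ s : G × ZMod m, ind (Qs g lv s) * (M.C 0 x s.1 * M.lw ω 0 s.1 s.2 * B x (M.ex s.1 s.2)) *
    |u x - v s.1|

/-- The last step. -/
noncomputable def EY (M : LM G (ZMod m) (6 * c.k + 2)) (ω : Fld (6 * c.k + 2) G (ZMod m))
    (A : G → G → ℝ) (y : G) : ℝ :=
  ∑ s : G × ZMod m, ind (Qs g lv s) *
    (A y s.1 * M.lw ω (6 * c.k + 2 - 1) s.1 s.2 * M.C (6 * c.k + 2) (M.ex s.1 s.2) y) *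
      |u s.1 - v y|

theorem EX_nonneg (M : LM G (ZMod m) (6 * c.k + 2)) (ω : Fld (6 * c.k + 2) G (ZMod m))
    (B : G → G → ℝ) (hB : ∀ x w, 0 ≤ B x w) (x : G) : 0 ≤ EX g lv u v M ω B x := by
  unfold EX
  exact Finset.sum_nonneg fun s _ => mul_nonneg (mul_nonneg (ind_nonneg _)
    (mul_nonneg (mul_nonneg (M.hC0 _ _ _) (lw_nonneg _ _ _ _ _)) (hB _ _))) (abs_nonneg _)

theorem EY_nonneg (M : LM G (ZMod m) (6 * c.k + 2)) (ω : Fld (6 * c.k + 2) G (ZMod m))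
    (A : G → G → ℝ) (hA : ∀ y w, 0 ≤ A y w) (y : G) : 0 ≤ EY g lv u v M ω A y := by
  unfold EY
  exact Finset.sum_nonneg fun s _ => mul_nonneg (mul_nonneg (ind_nonneg _)
    (mul_nonneg (mul_nonneg (hA _ _) (lw_nonneg _ _ _ _ _)) (M.hC0 _ _ _))) (abs_nonneg _)

theorem C_UM (hM : c.IsLev τ ρ m i M) (j : ℕ) (hj : (j + 1) % 3 ≠ 2) (x y : G) :
    M.C j x y = UM c.B x y := by
  rw [C_eq i hM, if_neg hj]

theorem EX_le (hM : c.IsLev τ ρ m i M) (hρ : 0 < ρ) (hX : 0 < c.X) (hm : 0 < (m : ℝ))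
    (hb : 0 < c.b) (ω : Fld (6 * c.k + 2) G (ZMod m)) (B : G → G → ℝ) (α : ℝ)
    (hB0 : ∀ x w, 0 ≤ B x w) (hB : ∀ x w, B x w ≤ α) :
    ∑ x, ind (g.RR x ∧ lv x = i) * EX g lv u v M ω B x ≤
      M.H0 * α * (2 / m * g.bc lv u v i) := by
  have hH := M.hH0
  have hα : 0 ≤ α := (hB0 1 1).trans (hB 1 1)
  have h1 : ∀ x, EX g lv u v M ω B x ≤
      ∑ w, ind (¬ g.W w ∧ lv w = i + 1) * (M.H0 * α * (UM c.B x w * |u x - v w|)) := by
    intro x
    rw [← sum_lab lv (fun w => ¬ g.W w) (i + 1)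
      (fun w => M.H0 * α * (UM c.B x w * |u x - v w|))]
    unfold EX
    refine Finset.sum_le_sum fun s _ => ?_
    rw [hM.ex, C_UM i hM 0 (by omega)]
    have hl := lw_le i hM hρ hm ω 0 s.1 s.2
    have hl0 := lw_nonneg M ω 0 s.1 s.2
    rw [show lj i 0 = i + 1 from if_pos (by norm_num)] at hl
    have hq := ind_nonneg (Qs g lv s)
    have hd := abs_nonneg (u x - v s.1)
    have hU := UM_nonneg c.B x s.1
    have h2 := mul_le_mul hl (hB x s.1) (hB0 x s.1)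
      (mul_nonneg (by linarith) (ind_nonneg (s.2 = i + 1)))
    calc ind (Qs g lv s) * (UM c.B x s.1 * M.lw ω 0 s.1 s.2 * B x s.1) * |u x - v s.1|
        = ind (Qs g lv s) * UM c.B x s.1 * |u x - v s.1| * (M.lw ω 0 s.1 s.2 * B x s.1) := by
          ring
      _ ≤ ind (Qs g lv s) * UM c.B x s.1 * |u x - v s.1| *
          (M.H0 * ind (s.2 = i + 1) * α) :=
          mul_le_mul_of_nonneg_left h2 (mul_nonneg (mul_nonneg hq hU) hd)
      _ = _ := by
          unfold Qs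
          ring
  calc ∑ x, ind (g.RR x ∧ lv x = i) * EX g lv u v M ω B x
      ≤ ∑ x, ind (g.RR x ∧ lv x = i) *
        ∑ w, ind (¬ g.W w ∧ lv w = i + 1) * (M.H0 * α * (UM c.B x w * |u x - v w|)) :=
        Finset.sum_le_sum fun x _ => mul_le_mul_of_nonneg_left (h1 x) (ind_nonneg _)
    _ = M.H0 * α * ∑ x, ∑ w, ind ((g.RR x ∧ lv x = i) ∧ (¬ g.W w ∧ lv w = i + 1)) *
          UM c.B x w * |u x - v w| := by
        rw [Finset.mul_sum]
        refine Finset.sum_congr rfl fun x _ => ?_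
        rw [Finset.mul_sum, Finset.mul_sum]
        refine Finset.sum_congr rfl fun w _ => ?_
        rw [ind_and (g.RR x ∧ lv x = i)]
        ring
    _ ≤ _ := mul_le_mul_of_nonneg_left (genB g lv u v i hX hm hb
        (fun x w => (g.RR x ∧ lv x = i) ∧ (¬ g.W w ∧ lv w = i + 1))
        (fun x w h => ⟨h.1.1, Or.inl h.2.1, fun h3 => h.2.1 h3.2, h.1.2, h.2.2⟩))
        (mul_nonneg (by linarith) hα)

theorem EY_le (hM : c.IsLev τ ρ m i M) (hρ : 0 < ρ) (hX : 0 < c.X) (hm : 0 < (m : ℝ))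
    (hb : 0 < c.b) (ω : Fld (6 * c.k + 2) G (ZMod m)) (A : G → G → ℝ) (α : ℝ)
    (hA0 : ∀ y w, 0 ≤ A y w) (hA : ∀ y w, A y w ≤ α) :
    ∑ y, ind (g.CC y ∧ lv y = i + 1) * EY g lv u v M ω A y ≤
      M.H0 * α * (2 / m * g.bc lv u v i) := by
  have hH := M.hH0
  have hα : 0 ≤ α := (hA0 1 1).trans (hA 1 1)
  have h1 : ∀ y, EY g lv u v M ω A y ≤
      ∑ w, ind (¬ g.W w ∧ lv w = i) * (M.H0 * α * (UM c.B w y * |u w - v y|)) := by
    intro y
    rw [← sum_lab lv (fun w => ¬ g.W w) i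
      (fun w => M.H0 * α * (UM c.B w y * |u w - v y|))]
    unfold EY
    refine Finset.sum_le_sum fun s _ => ?_
    rw [hM.ex, C_UM i hM (6 * c.k + 2) (by omega)]
    have hl := lw_le i hM hρ hm ω (6 * c.k + 2 - 1) s.1 s.2
    have hl0 := lw_nonneg M ω (6 * c.k + 2 - 1) s.1 s.2
    rw [show lj i (6 * c.k + 2 - 1) = i from if_neg (by
      rw [Nat.even_iff]
      omega)] at hl
    have hq := ind_nonneg (Qs g lv s)
    have hd := abs_nonneg (u s.1 - v y)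
    have hU := UM_nonneg c.B s.1 y
    have h2 := mul_le_mul hl (hA y s.1) (hA0 y s.1)
      (mul_nonneg (by linarith) (ind_nonneg (s.2 = i)))
    calc ind (Qs g lv s) * (A y s.1 * M.lw ω (6 * c.k + 2 - 1) s.1 s.2 * UM c.B s.1 y) *
          |u s.1 - v y|
        = ind (Qs g lv s) * UM c.B s.1 y * |u s.1 - v y| *
          (M.lw ω (6 * c.k + 2 - 1) s.1 s.2 * A y s.1) := by ring
      _ ≤ ind (Qs g lv s) * UM c.B s.1 y * |u s.1 - v y| *
          (M.H0 * ind (s.2 = i) * α) :=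
          mul_le_mul_of_nonneg_left h2 (mul_nonneg (mul_nonneg hq hU) hd)
      _ = _ := by
          unfold Qs
          ring
  calc ∑ y, ind (g.CC y ∧ lv y = i + 1) * EY g lv u v M ω A y
      ≤ ∑ y, ind (g.CC y ∧ lv y = i + 1) *
        ∑ w, ind (¬ g.W w ∧ lv w = i) * (M.H0 * α * (UM c.B w y * |u w - v y|)) :=
        Finset.sum_le_sum fun x _ => mul_le_mul_of_nonneg_left (h1 x) (ind_nonneg _)
    _ = M.H0 * α * ∑ w, ∑ y, ind ((¬ g.W w ∧ lv w = i) ∧ (g.CC y ∧ lv y = i + 1)) *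
          UM c.B w y * |u w - v y| := by
        rw [Finset.sum_comm (γ := G), Finset.mul_sum]
        refine Finset.sum_congr rfl fun y _ => ?_
        rw [Finset.mul_sum, Finset.mul_sum]
        refine Finset.sum_congr rfl fun w _ => ?_
        rw [ind_and (¬ g.W w ∧ lv w = i)]
        ring
    _ ≤ _ := mul_le_mul_of_nonneg_left (genB g lv u v i hX hm hb
        (fun w y => (¬ g.W w ∧ lv w = i) ∧ (g.CC y ∧ lv y = i + 1))
        (fun w y h => ⟨Or.inl h.1.1, h.2.1, fun h3 => h.1.1 h3.1, h.1.2, h.2.2⟩))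
        (mul_nonneg (by linarith) hα)

/-! nonnegativity of the loads -/

theorem pw_nonneg (M : LM G (ZMod m) (6 * c.k + 2)) :
    ∀ (l : List (G × ZMod m)) (j : ℕ) (x y : G), 0 ≤ M.pw j x l y
  | [], j, x, y => M.hC0 j x y
  | s :: l, j, x, y => mul_nonneg (mul_nonneg (M.hC0 _ _ _) (M.hk0 _ _ _)) (pw_nonneg M l _ _ _)

theorem fk_nonneg (M : LM G (ZMod m) (6 * c.k + 2)) (j r : ℕ) (x y : G) : 0 ≤ M.fk j r x y := by
  unfold LM.fk
  have h := sumL_mono (S := G × ZMod m) r (F := fun l => 0 * (0 : ℝ))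
    (H := fun l => M.pw j x l y) (fun l _ => by rw [zero_mul]; exact pw_nonneg M l j x y)
  rw [sumL_mul, mul_zero] at h
  exact h

theorem kb_nonneg (M : LM G (ZMod m) (6 * c.k + 2)) (jm : ℕ) (x w : G) : 0 ≤ M.kb jm x w :=
  Finset.sum_nonneg fun u _ => Finset.sum_nonneg fun e _ =>
    mul_nonneg (mul_nonneg (fk_nonneg M _ _ _ _) (M.hk0 _ _ _)) (ind_nonneg _)

theorem kc_nonneg (M : LM G (ZMod m) (6 * c.k + 2)) (jm : ℕ) (w y : G) : 0 ≤ M.kc jm w y :=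
  fk_nonneg M _ _ _ _

theorem FYm_nonneg (M : LM G (ZMod m) (6 * c.k + 2)) (jm : ℕ) (ω : Fld (6 * c.k + 2) G (ZMod m))
    (y : G) (j : ℕ) (w : G) : 0 ≤ M.FYm jm ω y j w := by
  refine fn_nonneg M ω _ _ (fun w => ?_) w
  exact Finset.sum_nonneg fun u _ => Finset.sum_nonneg fun e _ =>
    mul_nonneg (mul_nonneg (lw_nonneg _ _ _ _ _) (kc_nonneg M _ _ _)) (M.hC0 _ _ _)

theorem lx_nonneg (M : LM G (ZMod m) (6 * c.k + 2)) (jm : ℕ) (ω : Fld (6 * c.k + 2) G (ZMod m))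
    (x : G) (j j' : ℕ) (w w' : G) : 0 ≤ M.lx jm ω x j j' w w' :=
  mul_nonneg (fn_nonneg M ω _ _ (fun _ => M.hC0 _ _ _) _)
    (gn_nonneg M ω _ _ (fun _ => kb_nonneg M _ _ _) _)

theorem ly_nonneg (M : LM G (ZMod m) (6 * c.k + 2)) (jm : ℕ) (ω : Fld (6 * c.k + 2) G (ZMod m))
    (y : G) (j j' : ℕ) (w w' : G) : 0 ≤ M.ly jm ω y j j' w w' :=
  mul_nonneg (FYm_nonneg M _ _ _ _ _) (gn_nonneg M ω _ _ (fun _ => M.hC0 _ _ _) _)

theorem lz_nonneg (M : LM G (ZMod m) (6 * c.k + 2)) (jm : ℕ) (ω : Fld (6 * c.k + 2) G (ZMod m))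
    (y : G) (w w' : G) : 0 ≤ M.lz jm ω y w w' :=
  mul_nonneg (kc_nonneg M _ _ _) (gn_nonneg M ω _ _ (fun _ => M.hC0 _ _ _) _)

/-- The loads of the second half. -/
noncomputable def HY (M : LM G (ZMod m) (6 * c.k + 2)) (ω : Fld (6 * c.k + 2) G (ZMod m)) (y : G)
    (j : ℕ) (w w' : G) : ℝ :=
  if j = c.jl then M.lz c.jl ω y w w' else M.ly c.jl ω y j (j + 1) w w'

theorem HY_nonneg (M : LM G (ZMod m) (6 * c.k + 2)) (ω : Fld (6 * c.k + 2) G (ZMod m)) (y : G)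
    (j : ℕ) (w w' : G) : 0 ≤ HY M ω y j w w' := by
  unfold HY
  split
  · exact lz_nonneg _ _ _ _ _ _
  · exact ly_nonneg _ _ _ _ _ _ _ _

/-- The X-part of the bound. -/
noncomputable def LXt (M : LM G (ZMod m) (6 * c.k + 2)) (ω : Fld (6 * c.k + 2) G (ZMod m))
    (x : G) : ℝ :=
  EX g lv u v M ω (fun x w => M.Gn ω (M.kb c.jl x) c.jl 1 w) x +
    ∑ j ∈ Finset.range c.jl, Bil g lv u v M ω j (M.lx c.jl ω x j (j + 1))

/-- The Y-part of the bound. -/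
noncomputable def LYt (M : LM G (ZMod m) (6 * c.k + 2)) (ω : Fld (6 * c.k + 2) G (ZMod m))
    (y : G) : ℝ :=
  EY g lv u v M ω (fun y w => M.FYm c.jl ω y (6 * c.k + 2 - 1) w) y +
    ∑ j ∈ Finset.Ico c.jl (6 * c.k + 2 - 1), Bil g lv u v M ω j (HY M ω y j)

theorem point (hR : RLAWF_S.{u, 0}) (hk : 1 ≤ c.k) (M : LM G (ZMod m) (6 * c.k + 2))
    (hex : ∀ u l, M.ex u l = u) {T : ℕ}
    (ω : Fin T → Fld (6 * c.k + 2) G (ZMod m)) (D0 : G → Prop) (lam q : ℝ) (hlam : 0 < lam)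
    (hq : 0 < q) (t : Fin T) (x y : G) (hf : (3 / 4 : ℝ) * q ≤ M.Fm c.jl x y)
    (hZ : M.Fm c.jl x y / 4 ≤ M.Zgm c.jl ω (fun w => g.W w ∨ D0 w) lam t x y)
    (hlv : ∀ v, ¬ g.W v → ¬ D0 v → ∀ t j l, val (ω t) j v = some l →
      (∀ t' < t, ∀ j' l', val (ω t') j' v ≠ some l') →
      (∀ j' l', val (ω t) j' v = some l' → j' = j) → lv v = l) :
    ¬ M.tch (ω t) x ∧ ¬ M.tch (ω t) y ∧
    |u x - v y| ≤ 12 * lam / q * LXt g lv u v M (ω t) x +
      12 * lam / q * LYt g lv u v M (ω t) y := by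
  have hjl : c.jl = 3 * c.k + 2 := rfl
  obtain ⟨r0, r1, r2, r3, r4, r5, r6, r7⟩ :=
    hR G (ZMod m) (6 * c.k + 2) M c.jl lam q T (fun w => g.W w ∨ D0 w) ω t x y (by omega) hlam hq
      hf hZ
  have hne : ∃ z : List (G × ZMod m), z.length = 6 * c.k + 2 ∧
      M.Rm c.jl ω (fun w => g.W w ∨ D0 w) lam t x y z ≠ 0 := by
    by_contra hcon
    have h0 := pr_zero (6 * c.k + 2) (M.Rm c.jl ω (fun w => g.W w ∨ D0 w) lam t x y)
      (fun _ => True) (fun z hz h1 _ => hcon ⟨z, hz, h1⟩)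
    have h2 : sumL (6 * c.k + 2) (fun z => M.Rm c.jl ω (fun w => g.W w ∨ D0 w) lam t x y z *
        ind True) = sumL (6 * c.k + 2) (M.Rm c.jl ω (fun w => g.W w ∨ D0 w) lam t x y) :=
      sumL_congr _ fun z _ => by rw [ind_of trivial, mul_one]
    rw [h2, r1] at h0
    exact one_ne_zero h0
  obtain ⟨z0, hz0, hz1⟩ := hne
  obtain ⟨hg0, _, _⟩ := r2 z0 hz0 hz1
  refine ⟨hg0.2.1, hg0.2.2.1, ?_⟩
  have hQ : ∀ z : List (G × ZMod m), z.length = 6 * c.k + 2 →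
      M.Rm c.jl ω (fun w => g.W w ∨ D0 w) lam t x y z ≠ 0 →
      ∀ (j : ℕ) (s : G × ZMod m), z[j]? = some s → Qs g lv s := by
    intro z hz h0 j s hs
    obtain ⟨hg, _, hx⟩ := r2 z hz h0
    obtain ⟨c1, _, _, c4, c5⟩ := hg.1 j s hs s.1 (Or.inl rfl)
    refine ⟨fun h => c1 (Or.inl h), ?_⟩
    have hv := xw_val M (ω t) hx hs
    rw [Nat.zero_add] at hv
    refine hlv s.1 (fun h => c1 (Or.inl h)) (fun h => c1 (Or.inr h)) t j s.2 hv ?_ ?_
    · intro t' ht' j' l' h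
      exact c4 t' ht' ⟨j', s.1, l', h, Or.inl rfl⟩
    · intro j' l' h
      exact (c5 j' s.1 l' h (Or.inl rfl)).1
  refine (tele_sum (6 * c.k + 2) (by omega) _ r0 r1 (fun j s => Fp u v (j + 1) s.1) (u x)
    (v y)).trans ?_
  have hb1 : ∀ s : G × ZMod m, sumL (6 * c.k + 2) (fun z =>
      M.Rm c.jl ω (fun w => g.W w ∨ D0 w) lam t x y z * ind (z[0]? = some s)) *
        |u x - Fp u v (0 + 1) s.1| ≤
      12 * lam / q * (ind (Qs g lv s) * (M.C 0 x s.1 * M.lw (ω t) 0 s.1 s.2 *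
        M.Gn (ω t) (M.kb c.jl x) c.jl 1 (M.ex s.1 s.2)) * |u x - v s.1|) := by
    intro s
    have e1 : Fp u v (0 + 1) s.1 = v s.1 := if_neg (by norm_num)
    rw [e1]
    by_cases hs : Qs g lv s
    · rw [ind_of hs]
      refine (mul_le_mul_of_nonneg_right (r3 0 s (Nat.zero_le _))
        (abs_nonneg (u x - v s.1))).trans (le_of_eq ?_)
      show 12 * lam / q * M.lw (ω t) 0 s.1 s.2 * (M.C 0 x s.1 *
        M.Gn (ω t) (M.kb c.jl x) c.jl 1 (M.ex s.1 s.2)) * _ = _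
      ring
    · rw [pr_zero _ _ _ (fun z hz h0 h1 => hs (hQ z hz h0 0 s h1)), ind_not hs]
      simp
  have hb3 : ∀ s : G × ZMod m, sumL (6 * c.k + 2) (fun z =>
      M.Rm c.jl ω (fun w => g.W w ∨ D0 w) lam t x y z * ind (z[6 * c.k + 2 - 1]? = some s)) *
        |Fp u v (6 * c.k + 2 - 1 + 1) s.1 - v y| ≤
      12 * lam / q * (ind (Qs g lv s) * (M.FYm c.jl (ω t) y (6 * c.k + 2 - 1) s.1 *
        M.lw (ω t) (6 * c.k + 2 - 1) s.1 s.2 * M.C (6 * c.k + 2) (M.ex s.1 s.2) y) *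
          |u s.1 - v y|) := by
    intro s
    have e1 : Fp u v (6 * c.k + 2 - 1 + 1) s.1 = u s.1 := if_pos (by
      rw [Nat.even_iff]
      omega)
    rw [e1]
    by_cases hs : Qs g lv s
    · rw [ind_of hs]
      refine (mul_le_mul_of_nonneg_right (r4 (6 * c.k + 2 - 1) s (by omega) (by omega))
        (abs_nonneg (u s.1 - v y))).trans (le_of_eq ?_)
      have e3 : M.ly c.jl (ω t) y (6 * c.k + 2 - 1) (6 * c.k + 2 - 1) s.1 (M.ex s.1 s.2) =
          M.FYm c.jl (ω t) y (6 * c.k + 2 - 1) s.1 * M.C (6 * c.k + 2) (M.ex s.1 s.2) y := by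
        unfold LM.ly
        have e2 : 6 * c.k + 2 - 1 - (6 * c.k + 2 - 1) = 0 := Nat.sub_self _
        rw [e2]
        rfl
      rw [e3]
      ring
    · rw [pr_zero _ _ _ (fun z hz h0 h1 => hs (hQ z hz h0 _ s h1)), ind_not hs]
      simp
  have hb2 : ∀ j, j + 1 ≤ c.jl → ∑ s : G × ZMod m, ∑ s' : G × ZMod m,
      sumL (6 * c.k + 2) (fun z => M.Rm c.jl ω (fun w => g.W w ∨ D0 w) lam t x y z *
        ind (z[j]? = some s ∧ z[j + 1]? = some s')) *
        |Fp u v (j + 1) s.1 - Fp u v (j + 1 + 1) s'.1| ≤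
      12 * lam / q * Bil g lv u v M (ω t) j (M.lx c.jl (ω t) x j (j + 1)) := by
    intro j hj
    unfold Bil
    rw [Finset.mul_sum]
    refine Finset.sum_le_sum fun s _ => ?_
    rw [Finset.mul_sum]
    refine Finset.sum_le_sum fun s' _ => ?_
    by_cases hs : Qs g lv s ∧ Qs g lv s'
    · rw [ind_of hs.1, ind_of hs.2]
      refine (mul_le_mul_of_nonneg_right (r5 j s s' hj)
        (abs_nonneg (Fp u v (j + 1) s.1 - Fp u v (j + 1 + 1) s'.1))).trans (le_of_eq ?_)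
      show _ * |Fp u v (j + 1) s.1 - Fp u v (j + 2) s'.1| = _
      ring
    · rw [pr_zero _ _ _ (fun z hz h0 h1 => hs ⟨hQ z hz h0 _ s h1.1, hQ z hz h0 _ s' h1.2⟩),
        ← ind_and, ind_not hs]
      simp
  have hb4 : ∀ j, c.jl ≤ j → j + 1 < 6 * c.k + 2 → ∑ s : G × ZMod m, ∑ s' : G × ZMod m,
      sumL (6 * c.k + 2) (fun z => M.Rm c.jl ω (fun w => g.W w ∨ D0 w) lam t x y z *
        ind (z[j]? = some s ∧ z[j + 1]? = some s')) *
        |Fp u v (j + 1) s.1 - Fp u v (j + 1 + 1) s'.1| ≤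
      12 * lam / q * Bil g lv u v M (ω t) j (HY M (ω t) y j) := by
    intro j hj hj2
    unfold Bil
    rw [Finset.mul_sum]
    refine Finset.sum_le_sum fun s _ => ?_
    rw [Finset.mul_sum]
    refine Finset.sum_le_sum fun s' _ => ?_
    by_cases hs : Qs g lv s ∧ Qs g lv s'
    · rw [ind_of hs.1, ind_of hs.2]
      rcases eq_or_lt_of_le hj with hj3 | hj3
      · subst hj3
        refine (mul_le_mul_of_nonneg_right (r7 s s' hj2)
          (abs_nonneg (Fp u v (c.jl + 1) s.1 - Fp u v (c.jl + 1 + 1) s'.1))).trans (le_of_eq ?_)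
        have e1 : HY M (ω t) y c.jl s.1 (M.ex s'.1 s'.2) =
            M.lz c.jl (ω t) y (M.ex s.1 s.2) (M.ex s'.1 s'.2) := by
          unfold HY
          rw [if_pos rfl, hex s.1 s.2]
        show _ * |Fp u v (c.jl + 1) s.1 - Fp u v (c.jl + 2) s'.1| = _
        rw [e1]
        ring
      · refine (mul_le_mul_of_nonneg_right (r6 j s s' hj3 hj2)
          (abs_nonneg (Fp u v (j + 1) s.1 - Fp u v (j + 1 + 1) s'.1))).trans (le_of_eq ?_)
        have e1 : HY M (ω t) y j s.1 (M.ex s'.1 s'.2) =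
            M.ly c.jl (ω t) y j (j + 1) s.1 (M.ex s'.1 s'.2) := by
          unfold HY
          rw [if_neg hj3.ne']
        show _ * |Fp u v (j + 1) s.1 - Fp u v (j + 2) s'.1| = _
        rw [e1]
        ring
    · rw [pr_zero _ _ _ (fun z hz h0 h1 => hs ⟨hQ z hz h0 _ s h1.1, hQ z hz h0 _ s' h1.2⟩),
        ← ind_and, ind_not hs]
      simp
  rw [← Finset.sum_range_add_sum_Ico _ (show c.jl ≤ 6 * c.k + 2 - 1 by omega)]
  unfold LXt LYt
  have f1 : ∑ s : G × ZMod m, sumL (6 * c.k + 2) (fun z =>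
      M.Rm c.jl ω (fun w => g.W w ∨ D0 w) lam t x y z * ind (z[0]? = some s)) *
        |u x - Fp u v (0 + 1) s.1| ≤
      12 * lam / q * EX g lv u v M (ω t) (fun x w => M.Gn (ω t) (M.kb c.jl x) c.jl 1 w) x := by
    unfold EX
    rw [Finset.mul_sum]
    exact Finset.sum_le_sum fun s _ => hb1 s
  have f3 : ∑ s : G × ZMod m, sumL (6 * c.k + 2) (fun z =>
      M.Rm c.jl ω (fun w => g.W w ∨ D0 w) lam t x y z * ind (z[6 * c.k + 2 - 1]? = some s)) *
        |Fp u v (6 * c.k + 2 - 1 + 1) s.1 - v y| ≤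
      12 * lam / q * EY g lv u v M (ω t) (fun y w => M.FYm c.jl (ω t) y (6 * c.k + 2 - 1) w)
        y := by
    unfold EY
    rw [Finset.mul_sum]
    exact Finset.sum_le_sum fun s _ => hb3 s
  have f2 := Finset.sum_le_sum (s := Finset.range c.jl)
    (fun j hj => hb2 j (Finset.mem_range.1 hj))
  have f4 := Finset.sum_le_sum (s := Finset.Ico c.jl (6 * c.k + 2 - 1))
    (fun j hj => hb4 j (Finset.mem_Ico.1 hj).1 (by have := (Finset.mem_Ico.1 hj).2; omega))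
  rw [← Finset.mul_sum] at f2 f4
  refine (add_le_add (add_le_add f1 (add_le_add f2 f4)) f3).trans (le_of_eq ?_)
  ring

theorem ind_and_le (P Q : Prop) : ind (P ∧ Q) ≤ ind P := ind_mono (fun h => h.1)

theorem lx_sum (hM : c.IsLev τ ρ m i M) (hρ : 0 < ρ) (hX : 10 ≤ c.X) (hm : 0 < (m : ℝ))
    (hb : 0 < c.b) (hk : 1 ≤ c.k) (hi : τ = true → i = 0) (q : ℝ) (hq : 0 < q)
    (ω : Fld (6 * c.k + 2) G (ZMod m))
    (hLS : M.LS c.jl c.X q c.b1 ω) (hLL : g.LL lv M q ω i) :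
    ∑ x, ind (g.RR x ∧ lv x = i ∧ ¬ M.tch ω x) * LXt g lv u v M ω x ≤
      q * (kap1 τ M + (6 * c.k + 2) * kap2 τ M) * g.bc lv u v i := by
  have hjl : c.jl = 3 * c.k + 2 := rfl
  have hbc := bc_nonneg g lv u v i (by linarith : 0 < c.X)
  have hk2 := kap2_nonneg hX τ M
  have hH := M.hH0
  unfold LXt
  simp_rw [mul_add, Finset.mul_sum]
  rw [Finset.sum_add_distrib, Finset.sum_comm (s := Finset.univ) (t := Finset.range c.jl)]
  have hB0 : ∀ x w, 0 ≤ (fun x w => M.Gn ω (M.kb c.jl x) c.jl 1 w) x w := fun x w =>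
    gn_nonneg M ω _ _ (fun _ => kb_nonneg M _ _ _) w
  have h1 := EX_le g lv u v i hM hρ (by linarith) hm hb ω
    (fun x w => M.Gn ω (M.kb c.jl x) c.jl 1 w) (hh τ M * q) hB0
    (fun x w => by
      have h5 := hLS.x2 x w
      unfold hh
      cases τ with
      | false =>
        simp only [Bool.false_eq_true, if_false]
        exact h5.2 ((hM.inst.sp 1).2 (fun h => by simp at h))
      | true =>
        simp only [if_true]
        exact h5.1)
  have h1' : ∑ x, ind (g.RR x ∧ lv x = i ∧ ¬ M.tch ω x) *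
      EX g lv u v M ω (fun x w => M.Gn ω (M.kb c.jl x) c.jl 1 w) x ≤
      ∑ x, ind (g.RR x ∧ lv x = i) *
        EX g lv u v M ω (fun x w => M.Gn ω (M.kb c.jl x) c.jl 1 w) x :=
    Finset.sum_le_sum fun x _ => mul_le_mul_of_nonneg_right
      (ind_mono (fun h => ⟨h.1, h.2.1⟩)) (EX_nonneg g lv u v M ω _ hB0 x)
  have h2 : ∀ j ∈ Finset.range c.jl, ∑ x, ind (g.RR x ∧ lv x = i ∧ ¬ M.tch ω x) *
      Bil g lv u v M ω j (M.lx c.jl ω x j (j + 1)) ≤
      q * kap2 τ M * g.bc lv u v i := by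
    intro j hj
    have hj' := Finset.mem_range.1 hj
    rw [bil_lin g lv u v M ω j Finset.univ (fun x => ind (g.RR x ∧ lv x = i ∧ ¬ M.tch ω x))
      (fun x => M.lx c.jl ω x j (j + 1))]
    refine bil_sum g lv u v i hM hρ hX hm hb hi q hq ω j _ ?_ ?_
    · exact fun w w' => Finset.sum_nonneg fun x _ => mul_nonneg (ind_nonneg _)
        (lx_nonneg M _ _ _ _ _ _ _)
    · exact fun w w' => hLL.x1 j (j + 1) w w' (by omega) le_rfl (by omega)
  have h3 := Finset.sum_le_sum h2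
  rw [Finset.sum_const, Finset.card_range, nsmul_eq_mul] at h3
  have h4 : (c.jl : ℝ) * (q * kap2 τ M * g.bc lv u v i) ≤
      (6 * c.k + 2 : ℝ) * (q * kap2 τ M * g.bc lv u v i) := by
    refine mul_le_mul_of_nonneg_right ?_ (mul_nonneg (mul_nonneg hq.le hk2) hbc)
    have h5 : c.jl ≤ 6 * c.k + 2 := by omega
    exact_mod_cast h5
  calc _ ≤ M.H0 * (hh τ M * q) * (2 / m * g.bc lv u v i) +
        (6 * c.k + 2 : ℝ) * (q * kap2 τ M * g.bc lv u v i) :=
        add_le_add (h1'.trans h1) (h3.trans h4)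
    _ = _ := by
      unfold kap1
      ring

theorem ly_sum (hM : c.IsLev τ ρ m i M) (hρ : 0 < ρ) (hX : 10 ≤ c.X) (hm : 0 < (m : ℝ))
    (hb : 0 < c.b) (hk : 1 ≤ c.k) (hi : τ = true → i = 0) (q : ℝ) (hq : 0 < q)
    (ω : Fld (6 * c.k + 2) G (ZMod m))
    (hLS : M.LS c.jl c.X q c.b1 ω) (hLL : g.LL lv M q ω i) :
    ∑ y, ind (g.CC y ∧ lv y = i + 1 ∧ ¬ M.tch ω y) * LYt g lv u v M ω y ≤
      q * (kap1 τ M + (6 * c.k + 2) * kap2 τ M) * g.bc lv u v i := by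
  have hjl : c.jl = 3 * c.k + 2 := rfl
  have hbc := bc_nonneg g lv u v i (by linarith : 0 < c.X)
  have hk2 := kap2_nonneg hX τ M
  have hH := M.hH0
  unfold LYt
  simp_rw [mul_add, Finset.mul_sum]
  rw [Finset.sum_add_distrib, Finset.sum_comm (s := Finset.univ)
    (t := Finset.Ico c.jl (6 * c.k + 2 - 1))]
  have hB0 : ∀ y w, 0 ≤ (fun y w => M.FYm c.jl ω y (6 * c.k + 2 - 1) w) y w := fun y w =>
    FYm_nonneg M _ _ _ _ w
  have h1 := EY_le g lv u v i hM hρ (by linarith) hm hb ω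
    (fun y w => M.FYm c.jl ω y (6 * c.k + 2 - 1) w) (hh τ M * q) hB0
    (fun y w => by
      have h5 := hLS.y2 y w
      unfold hh
      cases τ with
      | false =>
        simp only [Bool.false_eq_true, if_false]
        exact h5.2 ((hM.inst.sp _).2 (fun h => by simp at h))
      | true =>
        simp only [if_true]
        exact h5.1)
  have h1' : ∑ y, ind (g.CC y ∧ lv y = i + 1 ∧ ¬ M.tch ω y) *
      EY g lv u v M ω (fun y w => M.FYm c.jl ω y (6 * c.k + 2 - 1) w) y ≤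
      ∑ y, ind (g.CC y ∧ lv y = i + 1) *
        EY g lv u v M ω (fun y w => M.FYm c.jl ω y (6 * c.k + 2 - 1) w) y :=
    Finset.sum_le_sum fun x _ => mul_le_mul_of_nonneg_right
      (ind_mono (fun h => ⟨h.1, h.2.1⟩)) (EY_nonneg g lv u v M ω _ hB0 x)
  have h2 : ∀ j ∈ Finset.Ico c.jl (6 * c.k + 2 - 1),
      ∑ y, ind (g.CC y ∧ lv y = i + 1 ∧ ¬ M.tch ω y) *
      Bil g lv u v M ω j (HY M ω y j) ≤ q * kap2 τ M * g.bc lv u v i := by
    intro j hj
    have hj' := Finset.mem_Ico.1 hj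
    rw [bil_lin g lv u v M ω j Finset.univ (fun y => ind (g.CC y ∧ lv y = i + 1 ∧ ¬ M.tch ω y))
      (fun y => HY M ω y j)]
    refine bil_sum g lv u v i hM hρ hX hm hb hi q hq ω j _ ?_ ?_
    · exact fun w w' => Finset.sum_nonneg fun x _ => mul_nonneg (ind_nonneg _)
        (HY_nonneg M _ _ _ _ _)
    · intro w w'
      rcases eq_or_lt_of_le hj'.1 with hj3 | hj3
      · subst hj3
        simp only [HY, if_true]
        exact hLL.z1 w w'
      · have e : ∀ y, HY M ω y j w w' = M.ly c.jl ω y j (j + 1) w w' := fun y => by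
          unfold HY
          rw [if_neg hj3.ne']
        simp only [e]
        exact hLL.y1 j (j + 1) w w' hj3 (by omega) le_rfl (by omega)
  have h3 := Finset.sum_le_sum h2
  rw [Finset.sum_const, Nat.card_Ico, nsmul_eq_mul] at h3
  have h4 : ((6 * c.k + 2 - 1 - c.jl : ℕ) : ℝ) * (q * kap2 τ M * g.bc lv u v i) ≤
      (6 * c.k + 2 : ℝ) * (q * kap2 τ M * g.bc lv u v i) := by
    refine mul_le_mul_of_nonneg_right ?_ (mul_nonneg (mul_nonneg hq.le hk2) hbc)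
    have h5 : 6 * c.k + 2 - 1 - c.jl ≤ 6 * c.k + 2 := by omega
    exact_mod_cast h5
  calc _ ≤ M.H0 * (hh τ M * q) * (2 / m * g.bc lv u v i) +
        (6 * c.k + 2 : ℝ) * (q * kap2 τ M * g.bc lv u v i) :=
        add_le_add (h1'.trans h1) (h3.trans h4)
    _ = _ := by
      unfold kap1
      ring

/-- The general form of (5.1). -/
theorem gen (hR : RLAWF_S.{u, 0}) (hNum : NUMF_S.{u})
    (hM : c.IsLev τ ρ m i M) (hρ : 0 < ρ) (hi : τ = true → i = 0)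
    (ω : Fin c.T → Fld (6 * c.k + 2) G (ZMod m)) (D0 : G → Prop)
    (hgood : ∀ x y, x ≠ y → c.adm τ true 9 x y → (3 / 4 : ℝ) * c.q τ ≤ M.Fm c.jl x y ∧
      ∃ t, M.Fm c.jl x y / 4 ≤
        M.Zgm c.jl ω (fun w => g.W w ∨ D0 w) (c.X ^ 5 * 4) t x y)
    (hLS : ∀ t, M.LS c.jl c.X (c.q τ) c.b1 (ω t))
    (hLL : ∀ t, g.LL lv M (c.q τ) (ω t) i)
    (hlv : ∀ v, ¬ g.W v → ¬ D0 v → ∀ t j l, val (ω t) j v = some l →
      (∀ t' < t, ∀ j' l', val (ω t') j' v ≠ some l') →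
      (∀ j' l', val (ω t) j' v = some l' → j' = j) → lv v = l) :
    ∃ LX LY : G → ℝ, (∀ x, 0 ≤ LX x) ∧ (∀ y, 0 ≤ LY y) ∧
      (∑ x, LX x ≤ 12 * (c.X ^ 5 * 4) * c.T * (kap1 τ M + (6 * c.k + 2) * kap2 τ M) *
        g.bc lv u v i) ∧
      (∑ y, LY y ≤ 12 * (c.X ^ 5 * 4) * c.T * (kap1 τ M + (6 * c.k + 2) * kap2 τ M) *
        g.bc lv u v i) ∧
      ∀ x y, g.RR x → g.CC y → lv x = i → lv y = i + 1 → x ≠ y → c.adm τ true 9 x y →
        |u x - v y| ≤ LX x + LY y := by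
  obtain ⟨n1, _, _, nk, _, nq, nb, _⟩ := hNum G c
  have hX : 10 ≤ c.X := le_trans (by norm_num) n1
  have hX0 : 0 < c.X := by linarith
  have hk : 1 ≤ c.k := le_trans (by norm_num) nk
  have hq := nq τ
  have hm : 0 < (m : ℝ) := by exact_mod_cast Nat.pos_of_ne_zero (NeZero.ne m)
  have h5 : 0 ≤ 12 * (c.X ^ 5 * 4) / c.q τ := by positivity
  have hx0 : ∀ t x, 0 ≤ LXt g lv u v M (ω t) x := by
    intro t x
    unfold LXt
    exact add_nonneg (EX_nonneg g lv u v M _ _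
      (fun x w => gn_nonneg M _ _ _ (fun _ => kb_nonneg M _ _ _) w) x)
      (Finset.sum_nonneg fun j _ => bil_nonneg g lv u v M _ _ _
        (fun w w' => lx_nonneg M _ _ _ _ _ _ _))
  have hy0 : ∀ t y, 0 ≤ LYt g lv u v M (ω t) y := by
    intro t y
    unfold LYt
    exact add_nonneg (EY_nonneg g lv u v M _ _ (fun y w => FYm_nonneg M _ _ _ _ w) y)
      (Finset.sum_nonneg fun j _ => bil_nonneg g lv u v M _ _ _
        (fun w w' => HY_nonneg M _ _ _ _ _))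
  refine ⟨fun x => ∑ t, ind (g.RR x ∧ lv x = i ∧ ¬ M.tch (ω t) x) *
      (12 * (c.X ^ 5 * 4) / c.q τ * LXt g lv u v M (ω t) x),
    fun y => ∑ t, ind (g.CC y ∧ lv y = i + 1 ∧ ¬ M.tch (ω t) y) *
      (12 * (c.X ^ 5 * 4) / c.q τ * LYt g lv u v M (ω t) y),
    fun x => Finset.sum_nonneg fun t _ => mul_nonneg (ind_nonneg _) (mul_nonneg h5 (hx0 t x)),
    fun y => Finset.sum_nonneg fun t _ => mul_nonneg (ind_nonneg _) (mul_nonneg h5 (hy0 t y)),
    ?_, ?_, ?_⟩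
  · show ∑ x, ∑ t, ind (g.RR x ∧ lv x = i ∧ ¬ M.tch (ω t) x) *
      (12 * (c.X ^ 5 * 4) / c.q τ * LXt g lv u v M (ω t) x) ≤ _
    rw [Finset.sum_comm]
    have h1 : ∀ t ∈ (Finset.univ : Finset (Fin c.T)),
        ∑ x, ind (g.RR x ∧ lv x = i ∧ ¬ M.tch (ω t) x) *
          (12 * (c.X ^ 5 * 4) / c.q τ * LXt g lv u v M (ω t) x) ≤
        12 * (c.X ^ 5 * 4) * ((kap1 τ M + (6 * c.k + 2) * kap2 τ M) * g.bc lv u v i) := by
      intro t _
      have h2 := lx_sum g lv u v i hM hρ hX hm nb hk hi (c.q τ) hq (ω t) (hLS t) (hLL t)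
      have h3 := mul_le_mul_of_nonneg_left h2 h5
      refine le_trans (le_of_eq ?_) (h3.trans (le_of_eq ?_))
      · rw [Finset.mul_sum]
        exact Finset.sum_congr rfl fun x _ => by ring
      · have hq' : c.q τ ≠ 0 := hq.ne'
        field_simp
    refine (Finset.sum_le_sum h1).trans (le_of_eq ?_)
    rw [Finset.sum_const, Finset.card_univ, Fintype.card_fin, nsmul_eq_mul]
    ring
  · show ∑ y, ∑ t, ind (g.CC y ∧ lv y = i + 1 ∧ ¬ M.tch (ω t) y) *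
      (12 * (c.X ^ 5 * 4) / c.q τ * LYt g lv u v M (ω t) y) ≤ _
    rw [Finset.sum_comm]
    have h1 : ∀ t ∈ (Finset.univ : Finset (Fin c.T)),
        ∑ y, ind (g.CC y ∧ lv y = i + 1 ∧ ¬ M.tch (ω t) y) *
          (12 * (c.X ^ 5 * 4) / c.q τ * LYt g lv u v M (ω t) y) ≤
        12 * (c.X ^ 5 * 4) * ((kap1 τ M + (6 * c.k + 2) * kap2 τ M) * g.bc lv u v i) := by
      intro t _
      have h2 := ly_sum g lv u v i hM hρ hX hm nb hk hi (c.q τ) hq (ω t) (hLS t) (hLL t)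
      have h3 := mul_le_mul_of_nonneg_left h2 h5
      refine le_trans (le_of_eq ?_) (h3.trans (le_of_eq ?_))
      · rw [Finset.mul_sum]
        exact Finset.sum_congr rfl fun x _ => by ring
      · have hq' : c.q τ ≠ 0 := hq.ne'
        field_simp
    refine (Finset.sum_le_sum h1).trans (le_of_eq ?_)
    rw [Finset.sum_const, Finset.card_univ, Fintype.card_fin, nsmul_eq_mul]
    ring
  · intro x y hRx hCy hlx hly hxy hadm
    obtain ⟨hf, t, ht⟩ := hgood x y hxy hadm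
    obtain ⟨ux, uy, hp⟩ := point g lv u v hR hk M hM.ex ω D0 (c.X ^ 5 * 4) (c.q τ)
      (by positivity) hq t x y hf ht hlv
    have e1 : ind (g.RR x ∧ lv x = i ∧ ¬ M.tch (ω t) x) = 1 := ind_of ⟨hRx, hlx, ux⟩
    have e2 : ind (g.CC y ∧ lv y = i + 1 ∧ ¬ M.tch (ω t) y) = 1 := ind_of ⟨hCy, hly, uy⟩
    refine hp.trans (add_le_add ?_ ?_)
    · have h6 := Finset.single_le_sum (f := fun t => ind (g.RR x ∧ lv x = i ∧ ¬ M.tch (ω t) x) *
        (12 * (c.X ^ 5 * 4) / c.q τ * LXt g lv u v M (ω t) x)) (fun t _ =>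
          mul_nonneg (ind_nonneg _) (mul_nonneg h5 (hx0 t x))) (Finset.mem_univ t)
      refine le_trans (le_of_eq ?_) h6
      show _ = ind (g.RR x ∧ lv x = i ∧ ¬ M.tch (ω t) x) *
        (12 * (c.X ^ 5 * 4) / c.q τ * LXt g lv u v M (ω t) x)
      rw [e1, one_mul]
    · have h6 := Finset.single_le_sum (f := fun t =>
        ind (g.CC y ∧ lv y = i + 1 ∧ ¬ M.tch (ω t) y) *
        (12 * (c.X ^ 5 * 4) / c.q τ * LYt g lv u v M (ω t) y)) (fun t _ =>
          mul_nonneg (ind_nonneg _) (mul_nonneg h5 (hy0 t y))) (Finset.mem_univ t)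
      refine le_trans (le_of_eq ?_) h6
      show _ = ind (g.CC y ∧ lv y = i + 1 ∧ ¬ M.tch (ω t) y) *
        (12 * (c.X ^ 5 * 4) / c.q τ * LYt g lv u v M (ω t) y)
      rw [e2, one_mul]

theorem numk (hNum : NUMF_S.{u}) (c : Ctx G) :
    (10 ^ 6 : ℝ) ≤ c.X ∧ (10 ^ 6 * c.k : ℝ) ≤ c.X ∧ (10 ^ 6 * c.T : ℝ) ≤ c.X ∧ (1 : ℝ) ≤ c.k := by
  obtain ⟨n1, n2, n3, nk, _⟩ := hNum G c
  have hk : (1 : ℝ) ≤ c.k := by exact_mod_cast le_trans (by norm_num) nk
  have hT : (1 : ℝ) ≤ c.T := by exact_mod_cast c.hT1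
  refine ⟨n1, ?_, ?_, hk⟩
  · exact (le_self_pow₀ (by linarith : (1 : ℝ) ≤ 10 ^ 6 * c.k) (by norm_num)).trans n2
  · exact (le_self_pow₀ (by linarith : (1 : ℝ) ≤ 10 ^ 6 * c.T) (by norm_num)).trans n3

theorem num0 (hNum : NUMF_S.{u}) (hM : c.IsLev false (1 / c.X ^ 5) m i M) (hm : 0 < (m : ℝ)) :
    12 * (c.X ^ 5 * 4) * c.T * (kap1 false M + (6 * c.k + 2) * kap2 false M) ≤ c.X ^ 20 := by
  obtain ⟨hX, hk, hT, hk1⟩ := numk hNum c
  have hX0 : 0 < c.X := by linarith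
  have hT0 : (0 : ℝ) ≤ c.T := Nat.cast_nonneg _
  have hk0 : (0 : ℝ) ≤ c.k := Nat.cast_nonneg _
  have hH : M.H0 = m * c.X ^ 5 := by
    rw [hM.H0]
    field_simp
  have h1 : 12 * (c.X ^ 5 * 4) * c.T * (kap1 false M + (6 * c.k + 2) * kap2 false M) =
      960 * c.T * c.X ^ 10 + 960 * (c.T * (6 * c.k + 2)) * c.X ^ 16 := by
    unfold kap1 kap2 hh ee
    rw [hH]
    simp only [Bool.false_eq_true, if_false]
    field_simp
    ring
  rw [h1]
  have h2 : 960 * (c.T : ℝ) ≤ c.X := by linarith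
  have h3 : (10 ^ 6 * c.T : ℝ) * (10 ^ 6 * c.k) ≤ c.X * c.X :=
    mul_le_mul hT hk (by positivity) hX0.le
  have h4 : 960 * ((c.T : ℝ) * (6 * c.k + 2)) ≤ c.X ^ 2 := by
    have h6 : 0 ≤ (c.T : ℝ) * c.k := mul_nonneg hT0 hk0
    have h7 : (c.T : ℝ) * (6 * c.k + 2) ≤ c.T * (8 * c.k) :=
      mul_le_mul_of_nonneg_left (by linarith) hT0
    nlinarith
  have h5 : 960 * (c.T : ℝ) * c.X ^ 10 ≤ c.X * c.X ^ 10 :=
    mul_le_mul_of_nonneg_right h2 (by positivity)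
  have h6 : 960 * ((c.T : ℝ) * (6 * c.k + 2)) * c.X ^ 16 ≤ c.X ^ 2 * c.X ^ 16 :=
    mul_le_mul_of_nonneg_right h4 (by positivity)
  have h7 : c.X ^ 11 ≤ c.X ^ 18 := pow_le_pow_right₀ (by linarith) (by norm_num)
  have h8 : 2 * c.X ^ 18 ≤ c.X ^ 19 := by
    rw [pow_succ c.X 18]
    nlinarith [pow_pos hX0 18]
  have h9 : c.X ^ 19 ≤ c.X ^ 20 := pow_le_pow_right₀ (by linarith) (by norm_num)
  have h10 : c.X * c.X ^ 10 = c.X ^ 11 := by ring
  have h11 : c.X ^ 2 * c.X ^ 16 = c.X ^ 18 := by ring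
  linarith

theorem num1 (hNum : NUMF_S.{u}) (hM : c.IsLev true (1 / c.X ^ 5) m i M) (hm : 0 < (m : ℝ)) :
    12 * (c.X ^ 5 * 4) * c.T * (kap1 true M + (6 * c.k + 2) * kap2 true M) ≤
      c.X ^ 30 * (m * c.X ^ 100) := by
  obtain ⟨hX, hk, hT, hk1⟩ := numk hNum c
  have hX0 : 0 < c.X := by linarith
  have hT0 : (0 : ℝ) ≤ c.T := Nat.cast_nonneg _
  have hk0 : (0 : ℝ) ≤ c.k := Nat.cast_nonneg _
  have hH : M.H0 = m * c.X ^ 5 := by
    rw [hM.H0]
    field_simp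
  have h1 : 12 * (c.X ^ 5 * 4) * c.T * (kap1 true M + (6 * c.k + 2) * kap2 true M) =
      m * (96 * c.T * c.X ^ 16 + (c.T * (6 * c.k + 2)) * (96 * c.X ^ 22 + 480 * c.X ^ 116)) := by
    unfold kap1 kap2 hh ee
    rw [hH]
    simp only [if_true]
    field_simp
    ring
  rw [h1]
  have h3 : (10 ^ 6 * c.T : ℝ) * (10 ^ 6 * c.k) ≤ c.X * c.X :=
    mul_le_mul hT hk (by positivity) hX0.le
  have h2 : 96 * (c.T : ℝ) ≤ c.X := by linarith
  have h4 : ((c.T : ℝ) * (6 * c.k + 2)) * 576 ≤ c.X ^ 2 := by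
    have h6 : 0 ≤ (c.T : ℝ) * c.k := mul_nonneg hT0 hk0
    have h7 : (c.T : ℝ) * (6 * c.k + 2) ≤ c.T * (8 * c.k) :=
      mul_le_mul_of_nonneg_left (by linarith) hT0
    nlinarith
  have h5 : 96 * (c.T : ℝ) * c.X ^ 16 ≤ c.X * c.X ^ 16 :=
    mul_le_mul_of_nonneg_right h2 (by positivity)
  have h12 : c.X ^ 22 ≤ c.X ^ 116 := pow_le_pow_right₀ (by linarith) (by norm_num)
  have h13 : 0 ≤ (c.T : ℝ) * (6 * c.k + 2) := mul_nonneg hT0 (by linarith)
  have h6 : ((c.T : ℝ) * (6 * c.k + 2)) * (96 * c.X ^ 22 + 480 * c.X ^ 116) ≤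
      c.X ^ 2 * c.X ^ 116 := by
    calc ((c.T : ℝ) * (6 * c.k + 2)) * (96 * c.X ^ 22 + 480 * c.X ^ 116)
        ≤ ((c.T : ℝ) * (6 * c.k + 2)) * (96 * c.X ^ 116 + 480 * c.X ^ 116) :=
          mul_le_mul_of_nonneg_left (by linarith) h13
      _ = ((c.T : ℝ) * (6 * c.k + 2)) * 576 * c.X ^ 116 := by ring
      _ ≤ _ := mul_le_mul_of_nonneg_right h4 (by positivity)
  have h7 : c.X ^ 17 ≤ c.X ^ 118 := pow_le_pow_right₀ (by linarith) (by norm_num)
  have h8 : 2 * c.X ^ 118 ≤ c.X ^ 119 := by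
    rw [pow_succ c.X 118]
    nlinarith [pow_pos hX0 118]
  have h9 : c.X ^ 119 ≤ c.X ^ 130 := pow_le_pow_right₀ (by linarith) (by norm_num)
  have h10 : c.X * c.X ^ 16 = c.X ^ 17 := by ring
  have h11 : c.X ^ 2 * c.X ^ 116 = c.X ^ 118 := by ring
  calc m * (96 * c.T * c.X ^ 16 + (c.T * (6 * c.k + 2)) * (96 * c.X ^ 22 + 480 * c.X ^ 116))
      ≤ (m : ℝ) * c.X ^ 130 := mul_le_mul_of_nonneg_left (by linarith) hm.le
    _ = _ := by ring

end model

end Pool.Agent.Lib.MP_688fd0_co.TF.H35.PpdF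

namespace Pool.Agent.Lib.MP_688fd0_co.TF.H35

open Pool.Agent.Lib.MP_688fd0_co.TE PpdF

universe u

/-- PPDF: (5.1) from the good outcomes of the fields. -/
theorem ppdf (hR : RLAWF_S.{u, 0}) (hNum : NUMF_S.{u}) : PPDF_S.{u} := by
  intro G _ _ _ c N g m _ τ M lv ω D0 _ hmOK hM hgood hLS hLL hlv _ he2
  obtain ⟨n1, _⟩ := hNum G c
  have hX0 : 0 < c.X := by linarith
  have hρ : 0 < 1 / c.X ^ 5 := by positivity
  have hm : 0 < (m : ℝ) := by exact_mod_cast Nat.pos_of_ne_zero (NeZero.ne m)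
  constructor
  · intro hτ
    subst hτ
    intro u v i
    obtain ⟨LX, LY, h1, h2, h3, h4, h5⟩ := gen g lv u v i hR hNum (hM i) hρ
      (fun h => by simp at h) ω D0 (hgood i) (hLS i) (hLL i) hlv
    have hbc := bc_nonneg g lv u v i hX0
    have hn := mul_le_mul_of_nonneg_right (num0 (i := i) hNum (hM i) hm) hbc
    refine ⟨LX, LY, h1, h2, h3.trans hn, h4.trans hn, ?_⟩
    intro x y a1 a2 a3 a4 a5 a6
    exact h5 x y a1 a2 a3 a4 a5 (by simpa [Ctx.adm, Lt] using a6)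
  · intro hτ
    subst hτ
    intro u v
    obtain ⟨LX, LY, h1, h2, h3, h4, h5⟩ := gen g lv u v 0 hR hNum (hM 0) hρ
      (fun _ => rfl) ω D0 (hgood 0) (hLS 0) (hLL 0) hlv
    have hbc := bc_nonneg g lv u v 0 hX0
    have hn := mul_le_mul_of_nonneg_right (num1 (i := 0) hNum (hM 0) hm) hbc
    refine ⟨LX, LY, h1, h2, h3.trans hn, h4.trans hn, ?_⟩
    intro x y a1 a2 a3 a4 a5 a6
    exact h5 x y a1 a2 a3 (by rw [a4, zero_add]) a5 (by simpa [Ctx.adm] using a6)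

end Pool.Agent.Lib.MP_688fd0_co.TF.H35
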